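import Pool.Agent.Work.MP_4faf10_nt.SB.Stmts

set_option autoImplicit false

namespace Pool.Agent.Work.MP_4faf10_nt.SB

/-- Item CT: counting. -/
theorem sb_CT : StCT := by
  intro p q k m c a hp hq hmq hqp hk hone hm hrep
  obtain ⟨hpos, hsum⟩ := hrep
  haveI : Fact p.Prime := ⟨hp⟩
  have hne : (Finset.univ : Finset (Fin m)).Nonempty := ⟨⟨0, by omega⟩, Finset.mem_univ _⟩
  obtain ⟨l0, -, hl0⟩ := Finset.exists_min_image Finset.univ (fun l => padicValNat p (a l)) hne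
  have hdv : ∀ l, p ^ padicValNat p (a l0) ∣ a l := fun l =>
    (pow_dvd_pow p (hl0 l (Finset.mem_univ l))).trans pow_padicValNat_dvd
  obtain ⟨e, he⟩ : ∃ e, e = padicValNat p (a l0) := ⟨_, rfl⟩
  rw [← he] at hdv
  have hpe : 0 < p ^ e := pow_pos hp.pos e
  choose b hb using hdv
  have hb0 : ¬ p ∣ b l0 := by
    rintro ⟨t, ht⟩
    have h1 : p ^ (padicValNat p (a l0) + 1) ∣ a l0 := by
      rw [← he, hb l0, ht, pow_succ]
      exact ⟨t, by ring⟩
    exact pow_succ_padicValNat_not_dvd (hpos l0).ne' h1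
  have hfac : c ^ k = (p ^ e) ^ k * ∑ l, b l ^ k := by
    rw [hsum, Finset.mul_sum]
    refine Finset.sum_congr rfl fun l _ => ?_
    rw [hb l, mul_pow]
  have hpc : p ^ e ∣ c := (Nat.pow_dvd_pow_iff hk).1 ⟨_, hfac⟩
  obtain ⟨d, hd⟩ := hpc
  have hdk : d ^ k = ∑ l, b l ^ k := by
    have h1 : (p ^ e) ^ k * d ^ k = (p ^ e) ^ k * ∑ l, b l ^ k := by
      rw [← mul_pow, ← hd, hfac]
    exact Nat.eq_of_mul_eq_mul_left (pow_pos hpe k) h1
  -- reduction modulo q
  have hval : ∀ x : ℕ, ((x : ZMod q)) ^ k = if ¬ p ∣ x then 1 else 0 := by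
    intro x
    by_cases hx : p ∣ x
    · rw [if_neg (not_not.2 hx)]
      have h1 : q ∣ x ^ k := hqp.trans (pow_dvd_pow_of_dvd hx k)
      have h2 := (ZMod.natCast_eq_zero_iff (x ^ k) q).2 h1
      rw [Nat.cast_pow] at h2
      exact h2
    · rw [if_pos hx]
      have h2 := (ZMod.natCast_eq_natCast_iff (x ^ k) 1 q).2 (hone x hx)
      rw [Nat.cast_pow, Nat.cast_one] at h2
      exact h2
  have hcard : ((d : ZMod q)) ^ k = (((Finset.univ.filter fun l => ¬ p ∣ b l).card : ℕ) : ZMod q) := by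
    have h1 : ((d ^ k : ℕ) : ZMod q) = ((∑ l, b l ^ k : ℕ) : ZMod q) := by rw [hdk]
    rw [Nat.cast_pow, Nat.cast_sum] at h1
    rw [h1, Finset.card_eq_sum_ones, Nat.cast_sum, Finset.sum_filter]
    refine Finset.sum_congr rfl fun l _ => ?_
    rw [Nat.cast_pow, hval (b l)]
    simp
  have hrpos : 0 < (Finset.univ.filter fun l => ¬ p ∣ b l).card :=
    Finset.card_pos.2 ⟨l0, Finset.mem_filter.2 ⟨Finset.mem_univ _, hb0⟩⟩
  have hrle : (Finset.univ.filter fun l => ¬ p ∣ b l).card ≤ m := by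
    have h1 := Finset.card_filter_le (Finset.univ : Finset (Fin m)) (fun l => ¬ p ∣ b l)
    simpa using h1
  have hpd : ¬ p ∣ d := by
    intro hpd
    rw [hval d, if_neg (not_not.2 hpd)] at hcard
    have h2 := (ZMod.natCast_eq_zero_iff _ q).1 hcard.symm
    have h3 := Nat.le_of_dvd hrpos h2
    omega
  rw [hval d, if_pos hpd] at hcard
  have hr1 : (Finset.univ.filter fun l => ¬ p ∣ b l).card = 1 := by
    have h2 : (((Finset.univ.filter fun l => ¬ p ∣ b l).card : ℕ) : ZMod q) = ((1 : ℕ) : ZMod q) := by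
      rw [← hcard, Nat.cast_one]
    have h3 := (ZMod.natCast_eq_natCast_iff _ _ q).1 h2
    exact Nat.ModEq.eq_of_lt_of_lt h3 (by omega) hq
  obtain ⟨i, hi⟩ := Finset.card_eq_one.1 hr1
  have hmem : ∀ l, ¬ p ∣ b l ↔ l = i := by
    intro l
    have h1 : l ∈ (Finset.univ.filter fun l => ¬ p ∣ b l) ↔ l ∈ ({i} : Finset (Fin m)) := by rw [hi]
    rw [Finset.mem_filter, Finset.mem_singleton] at h1
    exact ⟨fun h => h1.1 ⟨Finset.mem_univ _, h⟩, fun h => (h1.2 h).2⟩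
  refine ⟨e, d, b, i, hd, hb, hpd, (hmem i).2 rfl, fun l hl => ?_⟩
  by_contra h
  exact hl ((hmem l).1 h)

end Pool.Agent.Work.MP_4faf10_nt.SB
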