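import Pool.Agent.Work.MP_4faf10_nt.SB.Stmts

/-!
# MP_4faf10_nt, block SB, item HM: cyclotomic factors
-/

set_option autoImplicit false

namespace Pool.Agent.Work.MP_4faf10_nt.SB

namespace ISB_HM

open Polynomial

/-- the value of the homogeneous cyclotomic polynomial -/
noncomputable def H (d b : ℤ) (j : ℕ) : ℤ := (scaleRoots (cyclotomic j ℤ) b).eval d

theorem H_cast {K : Type} [Field K] (d b : ℤ) (hb : (b : K) ≠ 0) (j : ℕ) :
    ((H d b j : ℤ) : K) = (b : K) ^ Nat.totient j * (cyclotomic j K).eval ((d : K) / b) := by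
  have h := scaleRoots_eval₂_mul (p := cyclotomic j ℤ) (Int.castRingHom K) ((d : K) / b) b
  have e1 : (Int.castRingHom K) b * ((d : K) / b) = (Int.castRingHom K) d := by
    simp only [eq_intCast]
    field_simp
  rw [natDegree_cyclotomic, e1, eval₂_at_apply, ← eval_map, map_cyclotomic] at h
  simpa [H] using h

theorem H_prod (d b : ℤ) (hb : b ≠ 0) (n : ℕ) (hn : 0 < n) :
    ∏ j ∈ n.divisors, H d b j = d ^ n - b ^ n := by
  have hb' : (b : ℝ) ≠ 0 := by exact_mod_cast hb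
  have : ((∏ j ∈ n.divisors, H d b j : ℤ) : ℝ) = ((d ^ n - b ^ n : ℤ) : ℝ) := by
    rw [Int.cast_prod, Finset.prod_congr rfl (fun j _ => H_cast (K := ℝ) d b hb' j),
      Finset.prod_mul_distrib, Finset.prod_pow_eq_pow_sum, Nat.sum_totient, ← eval_prod,
      prod_cyclotomic_eq_X_pow_sub_one hn]
    simp only [eval_sub, eval_pow, eval_X, eval_one, Int.cast_sub, Int.cast_pow]
    rw [div_pow]
    field_simp
  exact_mod_cast this

theorem H_pos (d b : ℤ) (hb : 0 < b) (hbd : b < d) (j : ℕ) : 0 < H d b j := by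
  have hb' : (0 : ℝ) < b := by exact_mod_cast hb
  have hbd' : (b : ℝ) < d := by exact_mod_cast hbd
  have h1 : (1 : ℝ) < (d : ℝ) / b := by
    rw [lt_div_iff₀ hb']
    linarith
  have : (0 : ℝ) < (H d b j : ℤ) := by
    rw [H_cast d b hb'.ne' j]
    exact mul_pos (pow_pos hb' _) (cyclotomic_pos' j h1)
  exact_mod_cast this

theorem H_lt (d b : ℤ) (hb : 0 < b) (hbd : b < d) (j : ℕ) (hj : 0 < j) :
    H d b j < (2 * d) ^ Nat.totient j := by
  have hb' : (0 : ℝ) < b := by exact_mod_cast hb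
  have hbd' : (b : ℝ) < d := by exact_mod_cast hbd
  have h1 : (1 : ℝ) < (d : ℝ) / b := by
    rw [lt_div_iff₀ hb']
    linarith
  have h2 := cyclotomic_eval_le_add_one_pow_totient h1 j
  have : ((H d b j : ℤ) : ℝ) < (2 * (d : ℝ)) ^ Nat.totient j := by
    rw [H_cast d b hb'.ne' j]
    calc (b : ℝ) ^ Nat.totient j * (cyclotomic j ℝ).eval ((d : ℝ) / b)
        ≤ (b : ℝ) ^ Nat.totient j * ((d : ℝ) / b + 1) ^ Nat.totient j :=
          mul_le_mul_of_nonneg_left h2 (pow_nonneg hb'.le _)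
      _ = ((d : ℝ) + b) ^ Nat.totient j := by
          rw [← mul_pow]
          congr 1
          field_simp
      _ < (2 * (d : ℝ)) ^ Nat.totient j := by
          apply pow_lt_pow_left₀ (by linarith) (by linarith)
          exact (Nat.totient_pos.mpr hj).ne'
  exact_mod_cast this

theorem H_uniq (p : ℕ) (hp : p.Prime) (d b : ℤ) (hb : ¬ (p : ℤ) ∣ b) (i j : ℕ)
    (hi : i ∣ p - 1) (hj : j ∣ p - 1) (h1 : (p : ℤ) ∣ H d b i) (h2 : (p : ℤ) ∣ H d b j) :
    i = j := by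
  have hpF : Fact p.Prime := ⟨hp⟩
  have hp2 := hp.two_le
  have hb' : (b : ZMod p) ≠ 0 := by
    rw [Ne, ZMod.intCast_zmod_eq_zero_iff_dvd]
    exact hb
  have key : ∀ k : ℕ, k ∣ p - 1 → (p : ℤ) ∣ H d b k → IsPrimitiveRoot ((d : ZMod p) / b) k := by
    intro k hk h
    have hk0 : 0 < k := Nat.pos_of_dvd_of_pos hk (by omega)
    have hkp : k < p := lt_of_le_of_lt (Nat.le_of_dvd (by omega) hk) (by omega)
    have hne : NeZero (k : ZMod p) := by
      refine ⟨?_⟩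
      rw [Ne, ZMod.natCast_eq_zero_iff]
      intro hd
      have := Nat.le_of_dvd hk0 hd
      omega
    have h3 : ((H d b k : ℤ) : ZMod p) = 0 := by
      rw [ZMod.intCast_zmod_eq_zero_iff_dvd]
      exact h
    rw [H_cast d b hb' k] at h3
    rcases mul_eq_zero.mp h3 with h4 | h4
    · exact absurd (pow_eq_zero_iff (Nat.totient_pos.mpr hk0).ne' |>.mp h4) hb'
    · exact isRoot_cyclotomic_iff.mp h4
  exact (key i hi h1).unique (key j hj h2)

theorem exists_one (p : ℕ) (hp : p.Prime) (d b : ℤ) (hb : ¬ (p : ℤ) ∣ b) :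
    ∃ i ∈ (p - 1).divisors, ∀ j ∈ (p - 1).divisors, j ≠ i → ¬ (p : ℤ) ∣ H d b j := by
  have hp2 := hp.two_le
  by_cases h : ∃ i ∈ (p - 1).divisors, (p : ℤ) ∣ H d b i
  · obtain ⟨i, hi, h1⟩ := h
    refine ⟨i, hi, fun j hj hji h2 => hji ?_⟩
    exact H_uniq p hp d b hb j i (Nat.dvd_of_mem_divisors hj) (Nat.dvd_of_mem_divisors hi) h2 h1
  · push Not at h
    exact ⟨1, Nat.mem_divisors.mpr ⟨one_dvd _, by omega⟩, fun j hj _ => h j hj⟩

end ISB_HM

open ISB_HM in
theorem sb_HM : StHM := by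
  intro p K d b hp hb hbd hpb _ hK
  have hp2 := hp.two_le
  have hb' : (0 : ℤ) < b := by exact_mod_cast hb
  have hbd' : (b : ℤ) < d := by exact_mod_cast hbd
  have hpb' : ¬ (p : ℤ) ∣ (b : ℤ) := by
    rw [Int.natCast_dvd_natCast]
    exact hpb
  have hpr : Prime (p : ℤ) := Nat.prime_iff_prime_int.mp hp
  have hle : b ^ (p - 1) ≤ d ^ (p - 1) := Nat.pow_le_pow_left hbd.le _
  have hK' : (p : ℤ) ^ K ∣ ∏ j ∈ (p - 1).divisors, H d b j := by
    rw [H_prod d b hb'.ne' (p - 1) (by omega)]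
    have : ((p ^ K : ℕ) : ℤ) ∣ ((d ^ (p - 1) - b ^ (p - 1) : ℕ) : ℤ) :=
      Int.natCast_dvd_natCast.mpr hK
    rw [Nat.cast_sub hle] at this
    exact_mod_cast this
  obtain ⟨i, hi, hone⟩ := exists_one p hp d b hpb'
  rw [← Finset.mul_prod_erase _ _ hi] at hK'
  have hrest : ¬ (p : ℤ) ∣ ∏ j ∈ (p - 1).divisors.erase i, H d b j := by
    intro hd
    obtain ⟨j, hj, hdj⟩ := hpr.exists_mem_finset_dvd hd
    exact hone j (Finset.mem_of_mem_erase hj) (Finset.ne_of_mem_erase hj) hdj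
  have h1 := hpr.pow_dvd_of_dvd_mul_right K hrest hK'
  have hi0 : 0 < i := Nat.pos_of_mem_divisors hi
  have h2 := Int.le_of_dvd (H_pos d b hb' hbd' i) h1
  have h3 := H_lt d b hb' hbd' i hi0
  have h4 : Nat.totient i ≤ Nat.totient (p - 1) :=
    Nat.le_of_dvd (Nat.totient_pos.mpr (by omega))
      (Nat.totient_dvd_of_dvd (Nat.dvd_of_mem_divisors hi))
  have h5 : (2 * (d : ℤ)) ^ Nat.totient i ≤ (2 * (d : ℤ)) ^ Nat.totient (p - 1) :=
    pow_le_pow_right₀ (by omega) h4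
  have h6 : ((p ^ K : ℕ) : ℤ) < (((2 * d) ^ Nat.totient (p - 1) : ℕ) : ℤ) := by
    push_cast
    linarith
  exact_mod_cast h6

end Pool.Agent.Work.MP_4faf10_nt.SB
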