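import Pool.Agent.Work.MP_4faf10_nt.SB.Stmts

/-!
# Item L2 of block SB: the prime two
-/

set_option autoImplicit false

namespace Pool.Agent.Work.MP_4faf10_nt.SB

namespace ISB_L2

lemma pow_le_of_val {n m s : ℕ} (hm : m ≠ 0) (hs : s ≤ padicValNat 2 m) (hmn : m ≤ n) :
    2 ^ s ≤ n := by
  have h1 : 2 ^ padicValNat 2 m ≤ m := Nat.le_of_dvd (Nat.pos_of_ne_zero hm) pow_padicValNat_dvd
  exact ((Nat.pow_le_pow_right (by norm_num) hs).trans h1).trans hmn

lemma val_le_one {m : ℕ} (hm : m ≠ 0) (h : ¬ 4 ∣ m) : padicValNat 2 m ≤ 1 := by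
  by_contra hc
  apply h
  have h2 : 2 ^ 2 ∣ m := (padicValNat_dvd_iff_le hm).mpr (by omega)
  simpa using h2

end ISB_L2

open ISB_L2 in
theorem sb_L2 : StL2 := by
  intro k d b hk0 hke hbd hd hb hdiv
  have hlt : b ^ k < d ^ k := Nat.pow_lt_pow_left hbd hk0
  have hne : d ^ k - b ^ k ≠ 0 := by omega
  have hv : k ≤ padicValNat 2 (d ^ k - b ^ k) := (padicValNat_dvd_iff_le hne).mp hdiv
  have h2 : 2 ∣ d - b := by omega
  have hlte := padicValNat.pow_two_sub_pow hbd h2 hd hk0 hke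
  have hs : d + b ≠ 0 := by omega
  have hm : d - b ≠ 0 := by omega
  by_cases h4 : 4 ∣ d + b
  · have h5 : ¬ 4 ∣ d - b := by omega
    have h6 := val_le_one hm h5
    have h7 : 2 ^ (k - padicValNat 2 k) ≤ d + b :=
      pow_le_of_val hs (by omega) le_rfl
    omega
  · have h6 := val_le_one hs h4
    have h7 : 2 ^ (k - padicValNat 2 k) ≤ d + b :=
      pow_le_of_val hm (by omega) (by omega)
    omega

end Pool.Agent.Work.MP_4faf10_nt.SB
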