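import Pool.Agent.Work.MP_4faf10_nt.SB.Stmts

set_option autoImplicit false

namespace Pool.Agent.Work.MP_4faf10_nt.SB

theorem sb_LO : StLO := by
  intro p k d b hp hp2 hk hdvd hb hbd hpd hpb hdiv
  have : Fact p.Prime := ⟨hp⟩
  obtain ⟨t, rfl⟩ := hdvd
  have hp1 : p - 1 ≠ 0 := by
    have := hp.two_le
    omega
  have ht : t ≠ 0 := by
    rintro rfl
    exact hk (by simp)
  have hodd : Odd p := hp.odd_of_ne_two hp2
  have hlt : b ^ (p - 1) < d ^ (p - 1) := Nat.pow_lt_pow_left hbd hp1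
  have hcd : Nat.Coprime d p := ((Nat.Prime.coprime_iff_not_dvd hp).2 hpd).symm
  have hcb : Nat.Coprime b p := ((Nat.Prime.coprime_iff_not_dvd hp).2 hpb).symm
  have h1 : d ^ (p - 1) ≡ 1 [MOD p] := by
    have := Nat.ModEq.pow_totient hcd
    rwa [Nat.totient_prime hp] at this
  have h2 : b ^ (p - 1) ≡ 1 [MOD p] := by
    have := Nat.ModEq.pow_totient hcb
    rwa [Nat.totient_prime hp] at this
  have hxy : p ∣ d ^ (p - 1) - b ^ (p - 1) := by
    exact (Nat.modEq_iff_dvd' hlt.le).1 (h2.trans h1.symm)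
  have hx : ¬ p ∣ d ^ (p - 1) := fun h => hpd (hp.dvd_of_dvd_pow h)
  have key := padicValNat.pow_sub_pow hodd hlt hxy hx ht
  rw [← pow_mul, ← pow_mul] at key
  have hlt2 : b ^ ((p - 1) * t) < d ^ ((p - 1) * t) := Nat.pow_lt_pow_left hbd hk
  have hne : d ^ ((p - 1) * t) - b ^ ((p - 1) * t) ≠ 0 := (Nat.sub_pos_of_lt hlt2).ne'
  have hval : (p - 1) * t ≤ padicValNat p (d ^ ((p - 1) * t) - b ^ ((p - 1) * t)) :=
    (padicValNat_dvd_iff_le hne).1 hdiv
  have hpp : padicValNat p (p - 1) = 0 := by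
    apply padicValNat.eq_zero_of_not_dvd
    intro h
    have := Nat.le_of_dvd (Nat.pos_of_ne_zero hp1) h
    omega
  have hkt : padicValNat p ((p - 1) * t) = padicValNat p t := by
    rw [padicValNat.mul hp1 ht, hpp, zero_add]
  have hne1 : d ^ (p - 1) - b ^ (p - 1) ≠ 0 := (Nat.sub_pos_of_lt hlt).ne'
  rw [padicValNat_dvd_iff_le hne1, hkt]
  omega

end Pool.Agent.Work.MP_4faf10_nt.SB
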