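import Pool.Agent.Work.MP_4faf10_nt.SB.Stmts

/-!
Block SB of problem 4faf10, item QD.
-/

set_option autoImplicit false

namespace Pool.Agent.Work.MP_4faf10_nt.SB

theorem sb_QD : StQD := by
  constructor
  · intro p k hp hk
    have h1 : p ^ padicValNat p k ≤ k := Nat.le_of_dvd (Nat.pos_of_ne_zero hk) pow_padicValNat_dvd
    have h2 : padicValNat p k < p ^ padicValNat p k := Nat.lt_pow_self hp.one_lt
    omega
  · intro k _ hk
    have h1 : 2 ^ padicValNat 2 k ≤ k := Nat.le_of_dvd (by omega) pow_padicValNat_dvd
    have h2 : ∀ v : ℕ, 2 ≤ v → v + 2 ≤ 2 ^ v := by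
      intro v hv
      induction v, hv using Nat.le_induction with
      | base => norm_num
      | succ n hn ih =>
        rw [pow_succ]
        omega
    rcases Nat.lt_or_ge (padicValNat 2 k) 2 with h | h
    · omega
    · exact (h2 _ h).trans h1

end Pool.Agent.Work.MP_4faf10_nt.SB
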