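import Pool.Agent.Work.MP_4faf10_nt.SB.Stmts

/-!
# MP_4faf10_nt, block SB, item RD
-/

set_option autoImplicit false

namespace Pool.Agent.Work.MP_4faf10_nt.SB

namespace ISB_RD

lemma val_mul (p e x : ℕ) (hp : p.Prime) (hx : x ≠ 0) :
    padicValNat p (p ^ e * x) = e + padicValNat p x := by
  haveI : Fact p.Prime := ⟨hp⟩
  have hpe : p ^ e ≠ 0 := pow_ne_zero _ hp.ne_zero
  rw [padicValNat.mul hpe hx, padicValNat.prime_pow]

lemma exists_ne (m : ℕ) (hm : 2 ≤ m) (i : Fin m) : ∃ l : Fin m, l ≠ i := by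
  by_cases h : i.val = 0
  · refine ⟨⟨1, by omega⟩, ?_⟩
    intro hh
    have := congrArg Fin.val hh
    simp only at this
    omega
  · refine ⟨⟨0, by omega⟩, ?_⟩
    intro hh
    have := congrArg Fin.val hh
    simp only at this
    omega

end ISB_RD

theorem sb_RD : StRD := by
  intro p k m c a e d b i hp hk hm hrep hc ha hd hbi hbl
  haveI : Fact p.Prime := ⟨hp⟩
  obtain ⟨hpos, hsum⟩ := hrep
  have hpe : 0 < p ^ e := pow_pos hp.pos e
  have hb : ∀ l, 0 < b l := by
    intro l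
    rcases Nat.eq_zero_or_pos (b l) with h | h
    · have := hpos l
      rw [ha l, h] at this
      simp at this
    · exact h
  have hd0 : d ≠ 0 := by
    intro h
    exact hd (h ▸ dvd_zero p)
  have hdpos : 0 < d := Nat.pos_of_ne_zero hd0
  have hvc : padicValNat p c = e := by
    rw [hc, ISB_RD.val_mul p e d hp hd0, padicValNat.eq_zero_of_not_dvd hd, Nat.add_zero]
  have hval : ∀ l, padicValNat p (a l) = e + padicValNat p (b l) := by
    intro l
    rw [ha l, ISB_RD.val_mul p e (b l) hp (hb l).ne']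
  have hone : One p m c a := by
    refine ⟨i, ?_, ?_⟩
    · rw [hval i, hvc, padicValNat.eq_zero_of_not_dvd hbi, Nat.add_zero]
    · intro l hl
      rw [hval l, hvc]
      have h1 : 1 ≤ padicValNat p (b l) := one_le_padicValNat_of_dvd (hb l).ne' (hbl l hl)
      omega
  have hsum2 : d ^ k = ∑ l, b l ^ k := by
    have h1 : (p ^ e) ^ k * d ^ k = (p ^ e) ^ k * ∑ l, b l ^ k := by
      rw [← mul_pow, ← hc, hsum, Finset.mul_sum]
      refine Finset.sum_congr rfl ?_
      intro l _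
      rw [ha l, mul_pow]
    exact Nat.eq_of_mul_eq_mul_left (pow_pos hpe k) h1
  have hsplit : b i ^ k + ∑ l ∈ Finset.univ.erase i, b l ^ k = d ^ k := by
    rw [hsum2]
    exact Finset.add_sum_erase Finset.univ (fun l => b l ^ k) (Finset.mem_univ i)
  have hdvd : p ^ k ∣ ∑ l ∈ Finset.univ.erase i, b l ^ k := by
    refine Finset.dvd_sum ?_
    intro l hl
    exact pow_dvd_pow_of_dvd (hbl l (Finset.ne_of_mem_erase hl)) k
  have hsp : 0 < ∑ l ∈ Finset.univ.erase i, b l ^ k := by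
    obtain ⟨l, hl⟩ := ISB_RD.exists_ne m hm i
    refine Finset.sum_pos' (fun _ _ => Nat.zero_le _) ⟨l, ?_, ?_⟩
    · exact Finset.mem_erase.2 ⟨hl, Finset.mem_univ l⟩
    · exact pow_pos (hb l) k
  have hlt : b i ^ k < d ^ k := by omega
  refine ⟨hone, ?_, hb i, ?_, ?_⟩
  · rw [hc]
    exact Nat.le_mul_of_pos_left d hpe
  · exact lt_of_pow_lt_pow_left₀ k (Nat.zero_le d) hlt
  · have h2 : d ^ k - b i ^ k = ∑ l ∈ Finset.univ.erase i, b l ^ k := by omega
    rw [h2]
    exact hdvd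

end Pool.Agent.Work.MP_4faf10_nt.SB
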