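import Pool.Agent.Work.MP_4faf10_nt.SB.Stmts

/-!
# MP_4faf10_nt, block SB, item UE: even powers of odd numbers
-/

set_option autoImplicit false

namespace Pool.Agent.Work.MP_4faf10_nt.SB

namespace ISB_UE

theorem odd_pow_two (y : ℤ) (hy : Odd y) : ∀ v : ℕ, (2 : ℤ) ^ (v + 3) ∣ y ^ (2 ^ (v + 1)) - 1 := by
  intro v
  induction v with
  | zero =>
    obtain ⟨z, hz⟩ := hy
    obtain ⟨w, hw⟩ := Int.even_mul_succ_self z
    refine ⟨w, ?_⟩
    have e : y ^ (2 ^ (0 + 1)) - 1 = 4 * (z * (z + 1)) := by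
      rw [hz]
      norm_num
      ring
    rw [e, hw]
    ring
  | succ v ih =>
    have e : y ^ (2 ^ (v + 1 + 1)) - 1 = (y ^ (2 ^ (v + 1)) - 1) * (y ^ (2 ^ (v + 1)) + 1) := by
      rw [pow_succ 2 (v + 1), pow_mul]
      ring
    have h2 : (2 : ℤ) ∣ y ^ (2 ^ (v + 1)) + 1 := by
      have h3 : Odd (y ^ (2 ^ (v + 1))) := hy.pow
      exact (h3.add_odd odd_one).two_dvd
    rw [e]
    have h4 : (2 : ℤ) ^ (v + 1 + 3) = 2 ^ (v + 3) * 2 := by ring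
    rw [h4]
    exact mul_dvd_mul ih h2

end ISB_UE

/-- item UE -/
theorem sb_UE : StUE := by
  intro k x hk hev hx
  have hv : 1 ≤ padicValNat 2 k := one_le_padicValNat_of_dvd hk hev.two_dvd
  obtain ⟨w, hw⟩ : ∃ w, padicValNat 2 k = w + 1 := ⟨padicValNat 2 k - 1, by omega⟩
  obtain ⟨t, ht⟩ : 2 ^ padicValNat 2 k ∣ k := pow_padicValNat_dvd
  rw [hw] at ht ⊢
  have hodd : Odd x := Nat.odd_iff.2 (by omega)
  have hodd' : Odd (x : ℤ) := by exact_mod_cast hodd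
  have h1 := ISB_UE.odd_pow_two (x : ℤ) hodd' w
  have h2 : x ^ (2 ^ (w + 1)) ≡ 1 [MOD 2 ^ (w + 1 + 2)] := by
    refine (Nat.modEq_iff_dvd.2 ?_).symm
    push_cast
    exact h1
  have h3 := h2.pow t
  rw [one_pow, ← pow_mul, ← ht] at h3
  exact h3

end Pool.Agent.Work.MP_4faf10_nt.SB
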