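import Pool.Agent.Work.MP_4faf10_nt.SB.Stmts

/-!
[4faf10 SB] Item UO: the k-th power of a number prime to p, p - 1 dividing k.
-/

set_option autoImplicit false

namespace Pool.Agent.Work.MP_4faf10_nt.SB

theorem sb_UO : StUO := by
  intro p k x hp hk hpk hx
  haveI : Fact p.Prime := ⟨hp⟩
  set v := padicValNat p k with hv
  have h1 : p ^ v ∣ k := pow_padicValNat_dvd
  have hcop : Nat.Coprime (p ^ v) (p - 1) := by
    apply Nat.Coprime.pow_left
    rw [Nat.Prime.coprime_iff_not_dvd hp]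
    intro hd
    have h2 : 0 < p - 1 := by have := hp.two_le; omega
    have h3 := Nat.le_of_dvd h2 hd
    have := hp.two_le
    omega
  have h4 : p ^ v * (p - 1) ∣ k := Nat.Coprime.mul_dvd_of_dvd_of_dvd hcop h1 hpk
  have h5 : Nat.totient (p ^ (v + 1)) = p ^ v * (p - 1) := Nat.totient_prime_pow_succ hp v
  obtain ⟨t, ht⟩ := h4
  have hcx : Nat.Coprime x (p ^ (v + 1)) := by
    apply Nat.Coprime.pow_right
    exact (Nat.Coprime.symm ((Nat.Prime.coprime_iff_not_dvd hp).2 hx))
  have h6 := Nat.ModEq.pow_totient hcx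
  rw [h5] at h6
  have h7 := h6.pow t
  rw [one_pow, ← pow_mul, ← ht] at h7
  exact h7

end Pool.Agent.Work.MP_4faf10_nt.SB
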