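import Pool.Agent.Work.MP_4faf10_nt.SB.Stmts

/-!
# MP_4faf10_nt, block SB, item VS: the von Staudt congruence
-/

set_option autoImplicit false

namespace Pool.Agent.Work.MP_4faf10_nt.SB

namespace ISB_VS

/-- One prime. -/
theorem one_prime (hUO : StUO) (j n x p : ℕ) (hn : 1 ≤ n) (hp : p.Prime) (hd : (p - 1) ∣ n) :
    ((p : ℤ) ^ min j (padicValNat p n + 1)) ∣ (x : ℤ) ^ (j + n) - (x : ℤ) ^ j := by
  have e : (x : ℤ) ^ (j + n) - (x : ℤ) ^ j = (x : ℤ) ^ j * ((x : ℤ) ^ n - 1) := by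
    rw [pow_add]
    ring
  rw [e]
  by_cases hx : p ∣ x
  · have h1 : (p : ℤ) ∣ (x : ℤ) := by exact_mod_cast hx
    exact Dvd.dvd.mul_right ((pow_dvd_pow _ (min_le_left _ _)).trans (pow_dvd_pow_of_dvd h1 j)) _
  · have h1 := hUO p n x hp (by omega) hd hx
    have h2 : ((p ^ (padicValNat p n + 1) : ℕ) : ℤ) ∣ ((1 : ℕ) : ℤ) - ((x ^ n : ℕ) : ℤ) :=
      Nat.modEq_iff_dvd.mp h1
    have h3 : (p : ℤ) ^ (padicValNat p n + 1) ∣ (x : ℤ) ^ n - 1 := by
      have h4 := (dvd_neg.mpr h2)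
      push_cast at h4
      rwa [neg_sub] at h4
    exact Dvd.dvd.mul_left ((pow_dvd_pow _ (min_le_right _ _)).trans h3) _

end ISB_VS

/-- Item VS. -/
theorem sb_VS (hUO : StUO) : StVS := by
  intro j n x hn
  rw [Nat.modEq_iff_dvd]
  unfold den
  push_cast
  apply Finset.prod_dvd_of_coprime
  · intro p hp q hq hpq
    have hp' : p.Prime := (Finset.mem_filter.mp (Finset.mem_coe.mp hp)).2.1
    have hq' : q.Prime := (Finset.mem_filter.mp (Finset.mem_coe.mp hq)).2.1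
    have h1 : IsCoprime (p : ℤ) (q : ℤ) :=
      Nat.isCoprime_iff_coprime.mpr ((Nat.coprime_primes hp' hq').mpr hpq)
    exact h1.pow
  · intro p hp
    have h := (Finset.mem_filter.mp hp).2
    exact ISB_VS.one_prime hUO j n x p hn h.1 h.2

end Pool.Agent.Work.MP_4faf10_nt.SB
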