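import Pool.Agent.Work.MP_4faf10_nt.SB.Final
import Pool.Agent.Work.MP_4faf10_nt.SB.I_UO
import Pool.Agent.Work.MP_4faf10_nt.SB.I_UE
import Pool.Agent.Work.MP_4faf10_nt.SB.I_QD
import Pool.Agent.Work.MP_4faf10_nt.SB.I_CT
import Pool.Agent.Work.MP_4faf10_nt.SB.I_RD
import Pool.Agent.Work.MP_4faf10_nt.SB.I_LO
import Pool.Agent.Work.MP_4faf10_nt.SB.I_HM
import Pool.Agent.Work.MP_4faf10_nt.SB.I_L2
import Pool.Agent.Work.MP_4faf10_nt.SB.I_NG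
import Pool.Agent.Work.MP_4faf10_nt.SB.I_VS

/-!
# MP_4faf10_nt, block SB: assembly
-/

set_option autoImplicit false

namespace Pool.Agent.Work.MP_4faf10_nt.SB

theorem fn : StFN :=
  sb_FN sb_UO sb_UE sb_QD sb_CT sb_RD sb_LO sb_HM sb_L2 sb_NG (sb_VS sb_UO)

end Pool.Agent.Work.MP_4faf10_nt.SB
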