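import Pool.Agent.Work.MP_4faf10_nt.SB.StmtsP

/-!
Block SB of problem 4faf10, item GD.
-/

set_option autoImplicit false

namespace Pool.Agent.Work.MP_4faf10_nt.SB

theorem sb_GD : StGD := by
  intro M N s hM
  have h1 : ∀ p : ℕ, (Nat.gcd M (p - 1) : ℝ) =
      ∑ d ∈ M.divisors, if d ∣ p - 1 then (Nat.totient d : ℝ) else 0 := by
    intro p
    rw [← Finset.sum_filter]
    have e : M.divisors.filter (fun d => d ∣ p - 1) = (Nat.gcd M (p - 1)).divisors := by
      ext d
      rw [Finset.mem_filter, Nat.mem_divisors, Nat.mem_divisors, Nat.dvd_gcd_iff]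
      have hg : Nat.gcd M (p - 1) ≠ 0 := (Nat.gcd_pos_of_pos_left _ hM).ne'
      have hM0 : M ≠ 0 := by omega
      tauto
    rw [e, ← Nat.cast_sum, Nat.sum_totient]
  have h2 : ∀ d : ℕ, ∑ p ∈ prs N d, Real.log p / (p : ℝ) ^ s =
      ∑ p ∈ prs N 1, if d ∣ p - 1 then Real.log p / (p : ℝ) ^ s else 0 := by
    intro d
    rw [← Finset.sum_filter]
    refine Finset.sum_congr ?_ fun _ _ => rfl
    ext p
    simp only [prs, Finset.mem_filter, Finset.mem_range, one_dvd, and_true]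
    tauto
  calc ∑ p ∈ prs N 1, Real.log p * (Nat.gcd M (p - 1) : ℝ) / (p : ℝ) ^ s
      = ∑ p ∈ prs N 1, ∑ d ∈ M.divisors,
          (Nat.totient d : ℝ) * (if d ∣ p - 1 then Real.log p / (p : ℝ) ^ s else 0) := by
        refine Finset.sum_congr rfl fun p _ => ?_
        rw [h1 p, Finset.mul_sum, Finset.sum_div]
        refine Finset.sum_congr rfl fun d _ => ?_
        split_ifs <;> ring
    _ = ∑ d ∈ M.divisors, ∑ p ∈ prs N 1,
          (Nat.totient d : ℝ) * (if d ∣ p - 1 then Real.log p / (p : ℝ) ^ s else 0) :=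
        Finset.sum_comm
    _ = ∑ d ∈ M.divisors, (Nat.totient d : ℝ) * ∑ p ∈ prs N d, Real.log p / (p : ℝ) ^ s := by
        refine Finset.sum_congr rfl fun d _ => ?_
        rw [h2 d, Finset.mul_sum]

end Pool.Agent.Work.MP_4faf10_nt.SB
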