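import Pool.Agent.Work.MP_4faf10_nt.SB.StmtsP

/-! Item LB of block SB, part P: the theorem of Dirichlet. -/

set_option autoImplicit false

namespace Pool.Agent.Work.MP_4faf10_nt.SB

open ArithmeticFunction ArithmeticFunction.vonMangoldt LSeries

namespace ISB_LB

/-- A prime in the residue class of 1. -/
theorem dvd_of_cast {d n : ℕ} (hn : 1 ≤ n) (h : (n : ZMod d) = 1) : d ∣ n - 1 := by
  have h1 : ((n : ℕ) : ZMod d) = ((1 : ℕ) : ZMod d) := by rw [h, Nat.cast_one]
  have h2 := (ZMod.natCast_eq_natCast_iff n 1 d).1 h1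
  exact (Nat.modEq_iff_dvd' hn).1 h2.symm

theorem summ (d : ℕ) [NeZero d] {s : ℝ} (hs : 1 < s) :
    Summable (fun n : ℕ => residueClass (1 : ZMod d) n / (n : ℝ) ^ s) :=
  summable_real_of_abscissaOfAbsConv_lt <|
    (abscissaOfAbsConv_residueClass_le_one (1 : ZMod d)).trans_lt <| mod_cast hs

theorem pow_ge (n : ℕ) (hn : 1 ≤ n) {s : ℝ} (hs : 1 < s) : (n : ℝ) ≤ (n : ℝ) ^ s := by
  conv_lhs => rw [← Real.rpow_one (n : ℝ)]
  exact Real.rpow_le_rpow_of_exponent_le (by exact_mod_cast hn) hs.le

end ISB_LB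

theorem sb_LB : StLB := by
  intro d hd
  have : NeZero d := ⟨by omega⟩
  obtain ⟨C0, hC0⟩ := LSeries_residueClass_lower_bound (q := d) (a := (1 : ZMod d)) isUnit_one
  have hnp := summable_residueClass_non_primes_div (1 : ZMod d)
  set C1 : ℝ := ∑' n : ℕ, (if n.Prime then 0 else residueClass (1 : ZMod d) n) / (n : ℝ) with hC1
  refine ⟨C0 + C1 + 1, ?_⟩
  intro s hs1 hs2
  have hR := ISB_LB.summ d hs1
  have hR0 : ∀ n : ℕ, 0 ≤ residueClass (1 : ZMod d) n := residueClass_nonneg (1 : ZMod d)
  -- the two parts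
  have hPsum : Summable (fun n : ℕ => (if n.Prime then residueClass (1 : ZMod d) n else 0) /
      (n : ℝ) ^ s) := by
    refine Summable.of_nonneg_of_le (fun n => ?_) (fun n => ?_) hR
    · split_ifs
      · exact div_nonneg (hR0 n) (by positivity)
      · simp
    · split_ifs
      · exact le_refl _
      · rw [zero_div]
        exact div_nonneg (hR0 n) (by positivity)
  have hNle : ∀ n : ℕ, (if n.Prime then 0 else residueClass (1 : ZMod d) n) / (n : ℝ) ^ s ≤
      (if n.Prime then 0 else residueClass (1 : ZMod d) n) / (n : ℝ) := by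
    intro n
    split_ifs
    · simp
    · rcases Nat.eq_zero_or_pos n with h0 | h0
      · subst h0
        rw [residueClass_apply_zero, zero_div, zero_div]
      · exact div_le_div_of_nonneg_left (hR0 n) (by exact_mod_cast h0)
          (ISB_LB.pow_ge n h0 hs1)
  have hNsum : Summable (fun n : ℕ => (if n.Prime then 0 else residueClass (1 : ZMod d) n) /
      (n : ℝ) ^ s) := by
    refine Summable.of_nonneg_of_le (fun n => ?_) hNle hnp
    split_ifs
    · simp
    · exact div_nonneg (hR0 n) (by positivity)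
  have hN1 : ∑' n : ℕ, (if n.Prime then 0 else residueClass (1 : ZMod d) n) / (n : ℝ) ^ s ≤ C1 :=
    hNsum.tsum_le_tsum hNle hnp
  have hsplit : ∑' n : ℕ, residueClass (1 : ZMod d) n / (n : ℝ) ^ s =
      (∑' n : ℕ, (if n.Prime then residueClass (1 : ZMod d) n else 0) / (n : ℝ) ^ s) +
        ∑' n : ℕ, (if n.Prime then 0 else residueClass (1 : ZMod d) n) / (n : ℝ) ^ s := by
    rw [← hPsum.tsum_add hNsum]
    apply tsum_congr
    intro n
    split_ifs <;> simp
  have hlow := hC0 (x := s) ⟨hs1, hs2⟩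
  rw [hsplit] at hlow
  -- large initial segments
  have htend := hPsum.tendsto_sum_tsum_nat
  have hev := htend.eventually (lt_mem_nhds (show
    (∑' n : ℕ, (if n.Prime then residueClass (1 : ZMod d) n else 0) / (n : ℝ) ^ s) - 1 <
      ∑' n : ℕ, (if n.Prime then residueClass (1 : ZMod d) n else 0) / (n : ℝ) ^ s by linarith))
  obtain ⟨N, hN⟩ := Filter.eventually_atTop.1 hev
  refine ⟨N, fun N' hN' => ?_⟩
  have h1 := hN N' hN'
  have h2 : ∑ n ∈ Finset.range N', (if n.Prime then residueClass (1 : ZMod d) n else 0) /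
      (n : ℝ) ^ s ≤ ∑ p ∈ prs N' d, Real.log p / (p : ℝ) ^ s := by
    unfold prs
    rw [Finset.sum_filter]
    apply Finset.sum_le_sum
    intro n _
    by_cases hp : n.Prime
    · have hn1 : 1 ≤ n := hp.one_lt.le
      have hlog : 0 ≤ Real.log n / (n : ℝ) ^ s :=
        div_nonneg (Real.log_nonneg (by exact_mod_cast hn1)) (by positivity)
      by_cases hc : (n : ZMod d) = 1
      · have hdv := ISB_LB.dvd_of_cast hn1 hc
        rw [if_pos hp, if_pos ⟨hp, hdv⟩]
        have hle := residueClass_le (1 : ZMod d) n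
        rw [vonMangoldt_apply_prime hp] at hle
        exact div_le_div_of_nonneg_right hle (by positivity)
      · have h0 : residueClass (1 : ZMod d) n = 0 := by
          simp [residueClass, hc]
        rw [if_pos hp, h0, zero_div]
        split_ifs
        · exact hlog
        · exact le_refl _
    · rw [if_neg hp, zero_div, if_neg (fun h => hp h.1)]
  linarith

end Pool.Agent.Work.MP_4faf10_nt.SB
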