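import Pool.Agent.Work.MP_4faf10_nt.SB.StmtsP

/-!
# MP_4faf10_nt, block SB, item MT: the sum over the divisors
-/

set_option autoImplicit false

namespace Pool.Agent.Work.MP_4faf10_nt.SB

/-- item MT -/
theorem sb_MT (hLB : StLB) (hGD : StGD) : StMT := by
  intro M hM
  have h1 : ∀ d : ℕ, ∃ C : ℝ, 1 ≤ d → ∀ s : ℝ, 1 < s → s ≤ 2 → ∃ N : ℕ, ∀ N' : ℕ, N ≤ N' →
      (Nat.totient d : ℝ)⁻¹ / (s - 1) - C ≤ ∑ p ∈ prs N' d, Real.log p / (p : ℝ) ^ s := by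
    intro d
    by_cases hd : 1 ≤ d
    · obtain ⟨C, hC⟩ := hLB d hd
      exact ⟨C, fun _ => hC⟩
    · exact ⟨0, fun h => absurd h hd⟩
  choose C hC using h1
  refine ⟨∑ d ∈ M.divisors, (Nat.totient d : ℝ) * C d, fun s hs1 hs2 => ?_⟩
  have h2 : ∀ d : ℕ, ∃ N : ℕ, 1 ≤ d → ∀ N' : ℕ, N ≤ N' →
      (Nat.totient d : ℝ)⁻¹ / (s - 1) - C d ≤ ∑ p ∈ prs N' d, Real.log p / (p : ℝ) ^ s := by
    intro d
    by_cases hd : 1 ≤ d
    · obtain ⟨N, hN⟩ := hC d hd s hs1 hs2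
      exact ⟨N, fun _ => hN⟩
    · exact ⟨0, fun h => absurd h hd⟩
  choose N hN using h2
  refine ⟨M.divisors.sup N, ?_⟩
  rw [hGD M (M.divisors.sup N) s hM]
  have h3 : (M.divisors.card : ℝ) / (s - 1) - ∑ d ∈ M.divisors, (Nat.totient d : ℝ) * C d =
      ∑ d ∈ M.divisors, (Nat.totient d : ℝ) * ((Nat.totient d : ℝ)⁻¹ / (s - 1) - C d) := by
    have e : ∀ d ∈ M.divisors, (Nat.totient d : ℝ) * ((Nat.totient d : ℝ)⁻¹ / (s - 1) - C d) =
        1 / (s - 1) - (Nat.totient d : ℝ) * C d := by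
      intro d hd
      have hd1 : 0 < d := Nat.pos_of_mem_divisors hd
      have hφ : (Nat.totient d : ℝ) ≠ 0 := by
        exact_mod_cast (Nat.totient_pos.2 hd1).ne'
      rw [mul_sub, ← mul_div_assoc, mul_inv_cancel₀ hφ]
    rw [Finset.sum_congr rfl e, Finset.sum_sub_distrib, Finset.sum_const, nsmul_eq_mul]
    ring
  rw [h3]
  refine Finset.sum_le_sum fun d hd => ?_
  exact mul_le_mul_of_nonneg_left
    (hN d (Nat.pos_of_mem_divisors hd) _ (Finset.le_sup (f := N) hd)) (Nat.cast_nonneg _)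

end Pool.Agent.Work.MP_4faf10_nt.SB
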