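import Pool.Agent.Work.MP_4faf10_nt.SB.Stmts

/-!
# Item NG of block SB (helper3): the congruence for all bases gives a lower bound for the base
-/

set_option autoImplicit false

namespace Pool.Agent.Work.MP_4faf10_nt.SB

namespace ISB_NG

/-- All bases are smaller than `c`. -/
lemma lt_c {k m c : ℕ} {a : Fin m → ℕ} (hk : k ≠ 0) (hm : 2 ≤ m) (h : Rep k m c a) (i : Fin m) :
    a i < c := by
  classical
  obtain ⟨hpos, hsum⟩ := h
  obtain ⟨l, hl⟩ : ∃ l : Fin m, l ≠ i := by
    haveI : Nontrivial (Fin m) := Fin.nontrivial_iff_two_le.mpr hm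
    exact exists_ne i
  have h1 : a i ^ k < c ^ k := by
    rw [hsum, ← Finset.add_sum_erase Finset.univ (fun l => a l ^ k) (Finset.mem_univ i)]
    have h2 : 0 < ∑ x ∈ Finset.univ.erase i, a x ^ k := by
      apply Finset.sum_pos
      · intro x _
        exact Nat.pow_pos (hpos x)
      · exact ⟨l, Finset.mem_erase.mpr ⟨hl, Finset.mem_univ l⟩⟩
    show a i ^ k < a i ^ k + _
    omega
  exact lt_of_pow_lt_pow_left₀ k (Nat.zero_le c) h1

end ISB_NG

open ISB_NG in
theorem sb_NG : StNG := by
  intro j n m c N a hm hj hn h hmod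
  have hk : j + n ≠ 0 := by omega
  have hlt : ∀ i, a i < c := fun i => lt_c hk hm h i
  obtain ⟨hpos, hsum⟩ := h
  have hne : (Finset.univ : Finset (Fin m)).Nonempty := ⟨⟨0, by omega⟩, Finset.mem_univ _⟩
  have hc : 0 < c := lt_of_le_of_lt (Nat.zero_le _) (hlt ⟨0, by omega⟩)
  -- the lower bound for the sum of the `j`-th powers
  have h1 : c ^ j < ∑ i, a i ^ j := by
    have h2 : c ^ (j + n) < (∑ i, a i ^ j) * c ^ n := by
      rw [hsum, Finset.sum_mul]
      apply Finset.sum_lt_sum_of_nonempty hne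
      intro i _
      rw [pow_add]
      exact Nat.mul_lt_mul_of_pos_left (Nat.pow_lt_pow_left (hlt i) (by omega)) (Nat.pow_pos (hpos i))
    rw [pow_add] at h2
    exact lt_of_mul_lt_mul_right h2 (Nat.zero_le _)
  -- the upper bound
  have h3 : ∑ i, a i ^ j < m * c ^ j := by
    have h4 : ∑ i, a i ^ j < ∑ _i : Fin m, c ^ j := by
      apply Finset.sum_lt_sum_of_nonempty hne
      intro i _
      exact Nat.pow_lt_pow_left (hlt i) (by omega)
    simpa using h4
  -- the congruence
  have h5 : c ^ j ≡ ∑ i, a i ^ j [MOD N] := by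
    have h6 : ∑ i, a i ^ j ≡ ∑ i, a i ^ (j + n) [MOD N] := by
      have : ∀ s : Finset (Fin m), ∑ i ∈ s, a i ^ j ≡ ∑ i ∈ s, a i ^ (j + n) [MOD N] := by
        intro s
        classical
        induction s using Finset.induction_on with
        | empty => simp [Nat.ModEq]
        | insert x s hx ih =>
          rw [Finset.sum_insert hx, Finset.sum_insert hx]
          exact (hmod (a x)).add ih
      exact this Finset.univ
    rw [← hsum] at h6
    exact (hmod c).trans h6.symm
  have h7 : N ∣ ∑ i, a i ^ j - c ^ j := (Nat.modEq_iff_dvd' h1.le).mp h5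
  have h8 : N ≤ ∑ i, a i ^ j - c ^ j := Nat.le_of_dvd (Nat.sub_pos_of_lt h1) h7
  have h9 : (m - 1) * c ^ j = m * c ^ j - c ^ j := by
    rw [Nat.sub_mul, one_mul]
  rw [h9]
  omega

end Pool.Agent.Work.MP_4faf10_nt.SB
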