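import Pool.Agent.Work.MP_4faf10_nt.SB.StmtsP

/-!
# MP_4faf10_nt, block SB, item SW: the average
-/

set_option autoImplicit false

namespace Pool.Agent.Work.MP_4faf10_nt.SB

namespace ISB_SW

theorem rp_nonneg (s : ℝ) (n : ℕ) : 0 ≤ 1 / (n : ℝ) ^ s := by positivity

theorem ite_summable {s : ℝ} (hsum : Summable (fun n : ℕ => 1 / (n : ℝ) ^ s)) (q M : ℕ) :
    Summable (fun n : ℕ => if q ∣ M * n then 1 / (n : ℝ) ^ s else 0) := by
  refine Summable.of_nonneg_of_le (fun n => ?_) (fun n => ?_) hsum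
  · split_ifs
    · exact rp_nonneg s n
    · exact le_rfl
  · split_ifs
    · exact le_rfl
    · exact rp_nonneg s n

/-- The contribution of one prime. -/
theorem one_prime (M p : ℕ) (s : ℝ) (hM : 1 ≤ M) (hp : p.Prime) (hs : 1 < s)
    (hsum : Summable (fun n : ℕ => 1 / (n : ℝ) ^ s)) :
    Z s * ((Nat.gcd M (p - 1) : ℝ) / (p : ℝ) ^ s) ≤
      ∑' n : ℕ, (if (p - 1) ∣ M * n then 1 / (n : ℝ) ^ s else 0) := by
  obtain ⟨h, hh⟩ : (Nat.gcd M (p - 1)) ∣ p - 1 := Nat.gcd_dvd_right _ _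
  obtain ⟨M', hM'⟩ : (Nat.gcd M (p - 1)) ∣ M := Nat.gcd_dvd_left _ _
  have hg1 : 1 ≤ Nat.gcd M (p - 1) := Nat.gcd_pos_of_pos_left _ hM
  generalize Nat.gcd M (p - 1) = g at hh hM' hg1 ⊢
  have hp2 := hp.two_le
  have hh1 : 1 ≤ h := by
    rcases Nat.eq_zero_or_pos h with h0 | h0
    · rw [h0, Nat.mul_zero] at hh
      omega
    · exact h0
  have hgR : (1 : ℝ) ≤ g := by exact_mod_cast hg1
  have hhR : (0 : ℝ) < h := by exact_mod_cast hh1
  have hpR : (0 : ℝ) < p := by exact_mod_cast hp.pos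
  have h1 : (g : ℝ) / (p : ℝ) ^ s ≤ 1 / (h : ℝ) ^ s := by
    rw [div_le_div_iff₀ (Real.rpow_pos_of_pos hpR s) (Real.rpow_pos_of_pos hhR s), one_mul]
    calc (g : ℝ) * (h : ℝ) ^ s ≤ (g : ℝ) ^ s * (h : ℝ) ^ s :=
          mul_le_mul_of_nonneg_right (Real.self_le_rpow_of_one_le hgR hs.le)
            (Real.rpow_nonneg hhR.le s)
      _ = ((g : ℝ) * h) ^ s := (Real.mul_rpow (by linarith) hhR.le).symm
      _ ≤ (p : ℝ) ^ s := by
          apply Real.rpow_le_rpow (by positivity) _ (by linarith)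
          have h2 : g * h ≤ p := by rw [← hh]; omega
          exact_mod_cast h2
  have hZ : 0 ≤ Z s := tsum_nonneg (rp_nonneg s)
  have h3 : Z s * (1 / (h : ℝ) ^ s) = ∑' n : ℕ, 1 / ((h * n : ℕ) : ℝ) ^ s := by
    unfold Z
    rw [← tsum_mul_right]
    congr 1
    funext n
    push_cast
    rw [Real.mul_rpow hhR.le (Nat.cast_nonneg n)]
    rw [div_mul_div_comm, one_mul, mul_comm]
  have h4 : ∑' n : ℕ, 1 / ((h * n : ℕ) : ℝ) ^ s ≤
      ∑' n : ℕ, (if (p - 1) ∣ M * n then 1 / (n : ℝ) ^ s else 0) := by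
    have hinj : Function.Injective (fun n : ℕ => h * n) :=
      fun a b hab => Nat.eq_of_mul_eq_mul_left hh1 hab
    have h5 := tsum_comp_le_tsum_of_inj (ite_summable hsum (p - 1) M) (fun n => by
      split_ifs
      · exact rp_nonneg s n
      · exact le_rfl) hinj
    refine le_trans (le_of_eq ?_) h5
    congr 1
    funext n
    have h6 : (p - 1) ∣ M * (h * n) := ⟨M' * n, by rw [hh, hM']; ring⟩
    simp only [Function.comp_apply]
    rw [if_pos h6]
  calc Z s * ((g : ℝ) / (p : ℝ) ^ s) ≤ Z s * (1 / (h : ℝ) ^ s) :=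
        mul_le_mul_of_nonneg_left h1 hZ
    _ = _ := h3
    _ ≤ _ := h4

theorem log_den (m : ℕ) : Real.log (den 1 m : ℝ) =
    ∑ p ∈ (Finset.range (m + 2)).filter (fun p => p.Prime ∧ (p - 1) ∣ m), Real.log p := by
  unfold den
  push_cast
  rw [Real.log_prod]
  · apply Finset.sum_congr rfl
    intro p _
    have h1 : min 1 (padicValNat p m + 1) = 1 := by omega
    rw [h1, pow_one]
  · intro p hp
    have h1 := (Finset.mem_filter.1 hp).2.1.ne_zero
    have h2 : (p : ℝ) ≠ 0 := by exact_mod_cast h1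
    exact pow_ne_zero _ h2

theorem log_den_nonneg (m : ℕ) : 0 ≤ Real.log (den 1 m : ℝ) := by
  rw [log_den]
  exact Finset.sum_nonneg fun p _ => Real.log_natCast_nonneg p

theorem le_log_den (m N : ℕ) (hm : 1 ≤ m) :
    ∑ p ∈ (prs N 1).filter (fun p => (p - 1) ∣ m), Real.log p ≤ Real.log (den 1 m : ℝ) := by
  rw [log_den]
  apply Finset.sum_le_sum_of_subset_of_nonneg
  · intro p hp
    rw [Finset.mem_filter, prs, Finset.mem_filter] at hp
    obtain ⟨⟨_, hpr, _⟩, hd⟩ := hp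
    rw [Finset.mem_filter, Finset.mem_range]
    have h1 := Nat.le_of_dvd hm hd
    exact ⟨by omega, hpr, hd⟩
  · intro p _ _
    exact Real.log_natCast_nonneg p

end ISB_SW

theorem sb_SW : StSW := by
  intro M B A hM hA hyp
  refine ⟨∑ n ∈ Finset.range B, Real.log (den 1 (M * n) : ℝ), ?_⟩
  intro s hs hsum hsuml N
  -- the function on the right
  obtain ⟨f, hf⟩ : ∃ f : ℕ → ℝ, ∀ n, f n = ∑ p ∈ prs N 1,
      Real.log p * (if (p - 1) ∣ M * n then 1 / (n : ℝ) ^ s else 0) := ⟨_, fun _ => rfl⟩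
  have hsp : ∀ p : ℕ, Summable (fun n : ℕ =>
      Real.log p * (if (p - 1) ∣ M * n then 1 / (n : ℝ) ^ s else 0)) :=
    fun p => (ISB_SW.ite_summable hsum (p - 1) M).mul_left _
  have hfs : Summable f := by
    have h1 : f = fun n => ∑ p ∈ prs N 1,
      Real.log p * (if (p - 1) ∣ M * n then 1 / (n : ℝ) ^ s else 0) := funext hf
    rw [h1]
    exact summable_sum fun p _ => hsp p
  have hstep1 : Z s * ∑ p ∈ prs N 1, Real.log p * (Nat.gcd M (p - 1) : ℝ) / (p : ℝ) ^ s ≤
      ∑' n : ℕ, f n := by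
    have h1 : ∑' n : ℕ, f n = ∑ p ∈ prs N 1, ∑' n : ℕ,
        Real.log p * (if (p - 1) ∣ M * n then 1 / (n : ℝ) ^ s else 0) := by
      rw [← Summable.tsum_finsetSum fun p _ => hsp p]
      exact tsum_congr hf
    rw [h1, Finset.mul_sum]
    apply Finset.sum_le_sum
    intro p hp
    rw [prs, Finset.mem_filter] at hp
    rw [tsum_mul_left]
    have h2 := ISB_SW.one_prime M p s hM hp.2.1 hs hsum
    have h3 : Z s * (Real.log p * (Nat.gcd M (p - 1) : ℝ) / (p : ℝ) ^ s) =
        Real.log p * (Z s * ((Nat.gcd M (p - 1) : ℝ) / (p : ℝ) ^ s)) := by ring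
    rw [h3]
    exact mul_le_mul_of_nonneg_left h2 (Real.log_natCast_nonneg p)
  -- the bounds for the terms
  obtain ⟨b, hb⟩ : ∃ b : ℕ → ℝ, ∀ n, b n =
      if n ∈ Finset.range B then Real.log (den 1 (M * n) : ℝ) else 0 := ⟨_, fun _ => rfl⟩
  have hb0 : ∀ n, 0 ≤ b n := by
    intro n
    rw [hb]
    split_ifs
    · exact ISB_SW.log_den_nonneg _
    · exact le_rfl
  have hbz : ∀ n ∉ Finset.range B, b n = 0 := by
    intro n hn
    rw [hb, if_neg hn]
  have hbs : Summable b := summable_of_ne_finset_zero hbz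
  have hbt : ∑' n : ℕ, b n = ∑ n ∈ Finset.range B, Real.log (den 1 (M * n) : ℝ) := by
    rw [tsum_eq_sum hbz]
    apply Finset.sum_congr rfl
    intro n hn
    rw [hb, if_pos hn]
  have hMlog : 0 ≤ Real.log M := Real.log_natCast_nonneg M
  have hterm : ∀ n : ℕ, f n ≤ b n + A * Real.log M * (1 / (n : ℝ) ^ s) +
      A * (Real.log n / (n : ℝ) ^ s) := by
    intro n
    have hr := ISB_SW.rp_nonneg s n
    have hn2 : 0 ≤ A * Real.log M * (1 / (n : ℝ) ^ s) := mul_nonneg (mul_nonneg hA hMlog) hr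
    have hn3 : 0 ≤ A * (Real.log n / (n : ℝ) ^ s) :=
      mul_nonneg hA (div_nonneg (Real.log_natCast_nonneg n) (Real.rpow_nonneg (Nat.cast_nonneg n) s))
    have hfe : f n = (∑ p ∈ (prs N 1).filter (fun p => (p - 1) ∣ M * n), Real.log p) *
        (1 / (n : ℝ) ^ s) := by
      rw [hf, Finset.sum_filter, Finset.sum_mul]
      apply Finset.sum_congr rfl
      intro p _
      split_ifs
      · rfl
      · rw [mul_zero, zero_mul]
    rcases Nat.eq_zero_or_pos n with h0 | h0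
    · have h1 : f n = 0 := by
        rw [hfe, h0, Nat.cast_zero, Real.zero_rpow (by linarith), div_zero, mul_zero]
      rw [h1]
      have := hb0 n
      linarith
    · have hMn : 1 ≤ M * n := Nat.mul_pos hM h0
      have h1 : f n ≤ Real.log (den 1 (M * n) : ℝ) * (1 / (n : ℝ) ^ s) := by
        rw [hfe]
        exact mul_le_mul_of_nonneg_right (ISB_SW.le_log_den (M * n) N hMn) hr
      by_cases hnB : n < B
      · have h2 : 1 / (n : ℝ) ^ s ≤ 1 := by
          have h3 : (1 : ℝ) ≤ (n : ℝ) ^ s :=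
            Real.one_le_rpow (by exact_mod_cast h0) (by linarith)
          rw [div_le_one (by linarith)]
          exact h3
        have h3 : Real.log (den 1 (M * n) : ℝ) * (1 / (n : ℝ) ^ s) ≤
            Real.log (den 1 (M * n) : ℝ) * 1 :=
          mul_le_mul_of_nonneg_left h2 (ISB_SW.log_den_nonneg _)
        have h4 : b n = Real.log (den 1 (M * n) : ℝ) := by
          rw [hb, if_pos (Finset.mem_range.2 hnB)]
        rw [h4]
        linarith
      · have h2 := hyp n (by omega)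
        have hMR : (M : ℝ) ≠ 0 := by
          have : M ≠ 0 := by omega
          exact_mod_cast this
        have hnR : (n : ℝ) ≠ 0 := by
          have : n ≠ 0 := by omega
          exact_mod_cast this
        rw [Nat.cast_mul, Real.log_mul hMR hnR] at h2
        have h3 : Real.log (den 1 (M * n) : ℝ) * (1 / (n : ℝ) ^ s) ≤
            (A * (Real.log M + Real.log n)) * (1 / (n : ℝ) ^ s) :=
          mul_le_mul_of_nonneg_right h2 hr
        have h4 : (A * (Real.log M + Real.log n)) * (1 / (n : ℝ) ^ s) =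
            A * Real.log M * (1 / (n : ℝ) ^ s) + A * (Real.log n / (n : ℝ) ^ s) := by ring
        have := hb0 n
        linarith
  have hs1 : Summable (fun n : ℕ => A * Real.log M * (1 / (n : ℝ) ^ s)) := hsum.mul_left _
  have hs2 : Summable (fun n : ℕ => A * (Real.log n / (n : ℝ) ^ s)) := hsuml.mul_left _
  have hfin : ∑' n : ℕ, f n ≤ ∑' n : ℕ, (b n + A * Real.log M * (1 / (n : ℝ) ^ s) +
      A * (Real.log n / (n : ℝ) ^ s)) :=
    Summable.tsum_le_tsum hterm hfs ((hbs.add hs1).add hs2)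
  have hsplit : ∑' n : ℕ, (b n + A * Real.log M * (1 / (n : ℝ) ^ s) +
      A * (Real.log n / (n : ℝ) ^ s)) = ∑ n ∈ Finset.range B, Real.log (den 1 (M * n) : ℝ) +
        A * Real.log M * Z s + A * ∑' n : ℕ, Real.log n / (n : ℝ) ^ s := by
    rw [(hbs.add hs1).tsum_add hs2, hbs.tsum_add hs1, hbt, tsum_mul_left, tsum_mul_left]
    rfl
  linarith

end Pool.Agent.Work.MP_4faf10_nt.SB
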