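import Pool.Agent.Work.MP_4faf10_nt.SB.StmtsP

/-!
# MP_4faf10_nt, block SB, item ZL: the zeta function near 1 (helper57)
-/

set_option autoImplicit false

namespace Pool.Agent.Work.MP_4faf10_nt.SB

namespace ISB_ZL

open Filter Topology

theorem exists_eta : ∃ η : ℝ, 0 < η ∧ η ≤ 1 ∧ ∀ u : ℝ, 0 < u → u ≤ η →
    1 / 2 ≤ u * Z (1 + u) ∧ u * Z (1 + u) ≤ 2 := by
  have h := tendsto_sub_mul_tsum_nat_rpow
  have h1 : ∀ᶠ s : ℝ in 𝓝[>] 1, (s - 1) * ∑' n : ℕ, 1 / (n : ℝ) ^ s ∈ Set.Icc (1 / 2 : ℝ) 2 :=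
    h (Icc_mem_nhds (by norm_num) (by norm_num))
  obtain ⟨b, hb, hb2⟩ := (mem_nhdsGT_iff_exists_Ioo_subset (a := (1 : ℝ))).1 h1
  have hb' : (1 : ℝ) < b := hb
  refine ⟨min 1 ((b - 1) / 2), lt_min one_pos (by linarith), min_le_left _ _, fun u hu hu2 => ?_⟩
  have h2 : u ≤ (b - 1) / 2 := hu2.trans (min_le_right _ _)
  have h3 : (1 + u) ∈ Set.Ioo (1 : ℝ) b := ⟨by linarith, by linarith⟩
  have h4 := hb2 h3
  have h5 : (1 + u - 1) * ∑' n : ℕ, 1 / (n : ℝ) ^ (1 + u) ∈ Set.Icc (1 / 2 : ℝ) 2 := h4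
  rw [add_sub_cancel_left] at h5
  exact h5

theorem term_le (u : ℝ) (hu : 0 < u) (n : ℕ) :
    Real.log n / (n : ℝ) ^ (1 + u) ≤ (2 / u) * (1 / (n : ℝ) ^ (1 + u / 2)) := by
  rcases Nat.eq_zero_or_pos n with rfl | hn
  · rw [Nat.cast_zero, Real.log_zero, zero_div]
    exact mul_nonneg (by positivity) (by positivity)
  · have hn0 : (0 : ℝ) < n := by exact_mod_cast hn
    have h1 : Real.log n ≤ (n : ℝ) ^ (u / 2) / (u / 2) := Real.log_le_rpow_div hn0.le (by positivity)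
    have h2 : (n : ℝ) ^ (1 + u) = (n : ℝ) ^ (1 + u / 2) * (n : ℝ) ^ (u / 2) := by
      rw [← Real.rpow_add hn0]
      congr 1
      ring
    rw [div_le_iff₀ (Real.rpow_pos_of_pos hn0 _), h2]
    have h3 : (0 : ℝ) < (n : ℝ) ^ (1 + u / 2) := Real.rpow_pos_of_pos hn0 _
    have h4 : 2 / u * (1 / (n : ℝ) ^ (1 + u / 2)) * ((n : ℝ) ^ (1 + u / 2) * (n : ℝ) ^ (u / 2)) =
        (n : ℝ) ^ (u / 2) / (u / 2) := by
      field_simp
    rw [h4]
    exact h1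

end ISB_ZL

open ISB_ZL in
theorem sb_ZL : StZL := by
  obtain ⟨η, h0, h1, h2⟩ := exists_eta
  refine ⟨η, h0, h1, fun u hu hu2 => ?_⟩
  have hs : ∀ v : ℝ, 0 < v → Summable (fun n : ℕ => 1 / (n : ℝ) ^ (1 + v)) := fun v hv =>
    Real.summable_one_div_nat_rpow.2 (by linarith)
  have hs2 : Summable (fun n : ℕ => (2 / u) * (1 / (n : ℝ) ^ (1 + u / 2))) :=
    (hs (u / 2) (by positivity)).mul_left _
  have hs3 : Summable (fun n : ℕ => Real.log n / (n : ℝ) ^ (1 + u)) := by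
    refine Summable.of_nonneg_of_le (fun n => ?_) (term_le u hu) hs2
    exact div_nonneg (Real.log_natCast_nonneg n) (by positivity)
  obtain ⟨h3, h4⟩ := h2 u hu hu2
  refine ⟨hs u hu, hs3, ?_, ?_, ?_⟩
  · rw [div_le_iff₀ (by positivity)]
    linarith
  · rw [le_div_iff₀ hu]
    linarith
  · obtain ⟨-, h6⟩ := h2 (u / 2) (by positivity) (by linarith)
    have h7 : Z (1 + u / 2) ≤ 4 / u := by
      rw [le_div_iff₀ hu]
      linarith
    have h8 : ∑' n : ℕ, Real.log n / (n : ℝ) ^ (1 + u) ≤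
        ∑' n : ℕ, (2 / u) * (1 / (n : ℝ) ^ (1 + u / 2)) :=
      hs3.tsum_le_tsum (term_le u hu) hs2
    rw [tsum_mul_left] at h8
    refine h8.trans ?_
    have h9 : (2 / u) * Z (1 + u / 2) ≤ (2 / u) * (4 / u) :=
      mul_le_mul_of_nonneg_left h7 (by positivity)
    refine h9.trans (le_of_eq ?_)
    field_simp
    norm_num

end Pool.Agent.Work.MP_4faf10_nt.SB
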