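import Pool.Agent.Work.MP_4faf10_nt.SB.FinalP
import Pool.Agent.Work.MP_4faf10_nt.SB.I_UO
import Pool.Agent.Work.MP_4faf10_nt.SB.I_NG
import Pool.Agent.Work.MP_4faf10_nt.SB.I_VS
import Pool.Agent.Work.MP_4faf10_nt.SB.I_LB
import Pool.Agent.Work.MP_4faf10_nt.SB.I_GD
import Pool.Agent.Work.MP_4faf10_nt.SB.I_MT
import Pool.Agent.Work.MP_4faf10_nt.SB.I_ZL
import Pool.Agent.Work.MP_4faf10_nt.SB.I_SW
import Pool.Agent.Work.MP_4faf10_nt.SB.I_PR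

/-!
# MP_4faf10_nt, block SB, part P: assembly
-/

set_option autoImplicit false

namespace Pool.Agent.Work.MP_4faf10_nt.SB

theorem th : StTH :=
  sb_TH (sb_PR (sb_MT sb_LB sb_GD) sb_ZL sb_SW) sb_NG (sb_VS sb_UO)

end Pool.Agent.Work.MP_4faf10_nt.SB
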