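import Pool.Agent.Work.MP_4faf10_nt.SB.StmtsQ

set_option autoImplicit false

namespace Pool.Agent.Work.MP_4faf10_nt.SB

namespace ISB_CF

open Finset

/-- the cofactor -/
def RR (u w f : ℕ) : ℕ := (u - w) * ∑ j ∈ range f, (u ^ 2) ^ j * (w ^ 2) ^ (f - 1 - j)

theorem core (u w f : ℕ) (h : w < u) : (u + w) * RR u w f = u ^ (2 * f) - w ^ (2 * f) := by
  have h1 : w ^ (2 * f) ≤ u ^ (2 * f) := Nat.pow_le_pow_left h.le _
  have h2 := geom_sum₂_mul ((u : ℤ) ^ 2) ((w : ℤ) ^ 2) f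
  zify [h1]
  rw [pow_mul, pow_mul, ← h2, RR]
  push_cast [h.le]
  ring

theorem cop (q : ℕ) (hq : q.Prime) (hq2 : q ≠ 2) (u w n : ℕ) (h : w < u) (hw : ¬ q ∣ w)
    (h1 : q ∣ u + w) : ¬ q ∣ RR u w (2 ^ n) := by
  have : Fact q.Prime := ⟨hq⟩
  intro h2
  have h3 : ((u + w : ℕ) : ZMod q) = 0 := (ZMod.natCast_eq_zero_iff _ _).2 h1
  have h4 : ((RR u w (2 ^ n) : ℕ) : ZMod q) = 0 := (ZMod.natCast_eq_zero_iff _ _).2 h2
  have hw0 : (w : ZMod q) ≠ 0 := fun h5 => hw ((ZMod.natCast_eq_zero_iff _ _).1 h5)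
  have h20 : ((2 : ℕ) : ZMod q) ≠ 0 := fun h5 => by
    have h6 := (ZMod.natCast_eq_zero_iff _ _).1 h5
    exact hq2 ((Nat.prime_dvd_prime_iff_eq hq Nat.prime_two).1 h6)
  have h20' : (2 : ZMod q) ≠ 0 := by exact_mod_cast h20
  have hu : (u : ZMod q) = - w := by
    push_cast at h3
    exact eq_neg_of_add_eq_zero_left h3
  rw [RR] at h4
  push_cast [h.le] at h4
  rw [hu] at h4
  have h5 : ∀ j ∈ range (2 ^ n), ((-(w : ZMod q)) ^ 2) ^ j * ((w : ZMod q) ^ 2) ^ (2 ^ n - 1 - j)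
      = ((w : ZMod q) ^ 2) ^ (2 ^ n - 1) := by
    intro j hj
    have hj' : j < 2 ^ n := mem_range.1 hj
    rw [neg_sq, ← pow_add]
    congr 1
    omega
  rw [Finset.sum_congr rfl h5, Finset.sum_const, card_range, nsmul_eq_mul] at h4
  push_cast at h4
  have h6 : (-(w : ZMod q) - w) ≠ 0 := by
    have : (-(w : ZMod q) - w) = -(2 * w) := by ring
    rw [this]
    exact neg_ne_zero.2 (mul_ne_zero h20' hw0)
  have h7 : ((2 : ZMod q) ^ n * ((w : ZMod q) ^ 2) ^ (2 ^ n - 1)) ≠ 0 :=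
    mul_ne_zero (pow_ne_zero _ h20') (pow_ne_zero _ (pow_ne_zero _ hw0))
  exact (mul_ne_zero h6 h7) h4

end ISB_CF

open ISB_CF in
theorem sb_CF : StCF := by
  intro c a t v i hca hac ha ht hi hiv
  obtain ⟨n, rfl⟩ : ∃ n, v = i + (n + 1) := ⟨v - i - 1, by omega⟩
  have hti : t * 2 ^ i ≠ 0 := by positivity
  have hwu : a ^ (t * 2 ^ i) < c ^ (t * 2 ^ i) := Nat.pow_lt_pow_left hac hti
  have he : ∀ x : ℕ, x ^ (2 ^ (i + (n + 1)) * t) = (x ^ (t * 2 ^ i)) ^ (2 * 2 ^ n) := by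
    intro x
    rw [← pow_mul]
    congr 1
    rw [pow_add, pow_succ]
    ring
  have hco : Nat.Coprime (c ^ (t * 2 ^ i)) (a ^ (t * 2 ^ i)) := Nat.Coprime.pow _ _ hca
  have hkey : ∀ q : ℕ, q.Prime → q ≠ 2 → q ∣ c ^ (t * 2 ^ i) + a ^ (t * 2 ^ i) →
      ¬ q ∣ RR (c ^ (t * 2 ^ i)) (a ^ (t * 2 ^ i)) (2 ^ n) := by
    intro q hq hq2 h1
    refine cop q hq hq2 _ _ n hwu ?_ h1
    intro h2
    have h3 : q ∣ c ^ (t * 2 ^ i) := (Nat.dvd_add_left h2).1 h1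
    exact hq.one_lt.ne' (Nat.dvd_one.1 (hco ▸ Nat.dvd_gcd h3 h2))
  have hcore := core (c ^ (t * 2 ^ i)) (a ^ (t * 2 ^ i)) (2 ^ n) hwu
  rw [he c, he a]
  by_cases hpar : (c % 2 = 1 ∧ a % 2 = 1)
  · -- both odd
    obtain ⟨hc1, ha1⟩ := hpar
    have h4 : ∀ x : ℕ, x % 2 = 1 → x ^ (t * 2 ^ i) % 4 = 1 := by
      intro x hx
      obtain ⟨j, rfl⟩ : ∃ j, i = j + 1 := ⟨i - 1, by omega⟩
      have h5 : x ^ (t * 2 ^ (j + 1)) = (x ^ 2) ^ (t * 2 ^ j) := by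
        rw [← pow_mul]
        congr 1
        rw [pow_succ]
        ring
      rw [h5, Nat.pow_mod]
      have h6 : x ^ 2 % 4 = 1 := by
        have : x % 4 = 1 ∨ x % 4 = 3 := by omega
        rcases this with h | h <;> simp [Nat.pow_mod, h]
      simp [h6]
    have hcu := h4 c hc1
    have haw := h4 a ha1
    obtain ⟨H, hH⟩ : ∃ H, c ^ (t * 2 ^ i) + a ^ (t * 2 ^ i) = 2 * H :=
      ⟨(c ^ (t * 2 ^ i) + a ^ (t * 2 ^ i)) / 2, by omega⟩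
    have hHodd : ¬ 2 ∣ H := by omega
    refine ⟨H, 2 * RR (c ^ (t * 2 ^ i)) (a ^ (t * 2 ^ i)) (2 ^ n), ?_, ?_, hHodd, Or.inr hH⟩
    · rw [← hcore, hH]
      ring
    · rw [Nat.coprime_iff_gcd_eq_one]
      by_contra hne
      obtain ⟨q, hq, hqd⟩ := Nat.exists_prime_and_dvd hne
      have hqH : q ∣ H := hqd.trans (Nat.gcd_dvd_left _ _)
      have hqR : q ∣ 2 * RR (c ^ (t * 2 ^ i)) (a ^ (t * 2 ^ i)) (2 ^ n) :=
        hqd.trans (Nat.gcd_dvd_right _ _)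
      have hq2 : q ≠ 2 := by
        rintro rfl
        exact hHodd hqH
      have hqR' : q ∣ RR (c ^ (t * 2 ^ i)) (a ^ (t * 2 ^ i)) (2 ^ n) := by
        rcases (Nat.Prime.dvd_mul hq).1 hqR with h | h
        · exact absurd ((Nat.prime_dvd_prime_iff_eq hq Nat.prime_two).1 h) hq2
        · exact h
      exact hkey q hq hq2 (hH ▸ (hqH.mul_left 2)) hqR'
  · -- different parity
    have hodd : (c ^ (t * 2 ^ i) + a ^ (t * 2 ^ i)) % 2 = 1 := by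
      have hne : ¬ (c % 2 = 0 ∧ a % 2 = 0) := by
        rintro ⟨h1, h2⟩
        have h3 : 2 ∣ Nat.gcd c a :=
          Nat.dvd_gcd (Nat.dvd_of_mod_eq_zero h1) (Nat.dvd_of_mod_eq_zero h2)
        rw [hca] at h3
        omega
      have hcase : (c % 2 = 1 ∧ a % 2 = 0) ∨ (c % 2 = 0 ∧ a % 2 = 1) := by omega
      rw [Nat.add_mod, Nat.pow_mod c, Nat.pow_mod a]
      rcases hcase with ⟨h1, h2⟩ | ⟨h1, h2⟩ <;> simp [h1, h2, one_pow, zero_pow hti]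
    have hHodd : ¬ 2 ∣ c ^ (t * 2 ^ i) + a ^ (t * 2 ^ i) := by omega
    refine ⟨c ^ (t * 2 ^ i) + a ^ (t * 2 ^ i), RR (c ^ (t * 2 ^ i)) (a ^ (t * 2 ^ i)) (2 ^ n),
      hcore, ?_, hHodd, Or.inl rfl⟩
    rw [Nat.coprime_iff_gcd_eq_one]
    by_contra hne
    obtain ⟨q, hq, hqd⟩ := Nat.exists_prime_and_dvd hne
    have hqH := hqd.trans (Nat.gcd_dvd_left _ _)
    have hqR := hqd.trans (Nat.gcd_dvd_right _ _)
    have hq2 : q ≠ 2 := by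
      rintro rfl
      exact hHodd hqH
    exact hkey q hq hq2 hqH hqR

end Pool.Agent.Work.MP_4faf10_nt.SB
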