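import Pool.Agent.Work.MP_4faf10_nt.SB.StmtsQ

/-!
# The equation `c ^ k = a ^ k + y b ^ k`
-/

set_option autoImplicit false

namespace Pool.Agent.Work.MP_4faf10_nt.SB

namespace ISB_EQ

/-- A prime of one of the factors divides `y`. -/
theorem step (hF2 : StF2) (hPW : StPW) (hCF : StCF) (hQP : StQP) (k y c a b t v i : ℕ)
    (hk : k = 2 ^ v * t) (ht : 0 < t) (hy : 0 < y) (ha : 0 < a) (hca : Nat.Coprime c a)
    (hac : a < c) (hi2 : 2 ≤ i) (hiv : i < v) (heq : c ^ k = a ^ k + y * b ^ k) :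
    ∃ q : ℕ, q.Prime ∧ q ≠ 2 ∧ q ∣ y ∧ q ∣ c ^ (t * 2 ^ i) + a ^ (t * 2 ^ i) ∧
      2 ^ (i + 1) ≤ q - 1 := by
  obtain ⟨H, S, h1, h2, h3, h4⟩ := hCF c a t v i hca hac ha ht (by omega) hiv
  have h5 : H * S = y * b ^ k := by
    rw [h1, ← hk, heq]
    exact Nat.add_sub_cancel_left _ _
  have hnc : ¬ Nat.Coprime H y := by
    intro hc
    obtain ⟨w, hw⟩ := hPW k y b H S hy h5 h2 hc
    obtain ⟨j, rfl⟩ : ∃ j, i = j + 2 := ⟨i - 2, by omega⟩
    obtain ⟨v', rfl⟩ : ∃ v', v = v' + 1 := ⟨v - 1, by omega⟩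
    have hk2 : k = (2 ^ v' * t) * 2 := by rw [hk]; ring
    have hw2 : H = (w ^ (2 ^ v' * t)) ^ 2 := by rw [hw, hk2, pow_mul]
    have hx : ∀ x : ℕ, x ^ (t * 2 ^ (j + 2)) = (x ^ (t * 2 ^ j)) ^ 4 := by
      intro x
      rw [← pow_mul]
      congr 1
      ring
    rw [hx, hx] at h4
    have hc0 : 0 < c := by omega
    have hp1 : 0 < c ^ (t * 2 ^ j) := pow_pos hc0 _
    have hp2 : 0 < a ^ (t * 2 ^ j) := pow_pos ha _
    rcases h4 with h4 | h4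
    · rw [hw2] at h4
      have h6 : ((c ^ (t * 2 ^ j) : ℕ) : ℤ) ^ 4 + ((a ^ (t * 2 ^ j) : ℕ) : ℤ) ^ 4 =
          ((w ^ (2 ^ v' * t) : ℕ) : ℤ) ^ 2 := by exact_mod_cast h4
      exact not_fermat_42 (by exact_mod_cast hp1.ne') (by exact_mod_cast hp2.ne') h6
    · rw [hw2] at h4
      have h6 := hF2 _ _ _ hp1 hp2 h4
      have h7 : t * 2 ^ j ≠ 0 := (Nat.mul_pos ht (pow_pos two_pos j)).ne'
      have h8 := Nat.pow_lt_pow_left hac h7
      omega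
  obtain ⟨q, hq, hqH, hqy⟩ := Nat.Prime.not_coprime_iff_dvd.mp hnc
  have hq2 : q ≠ 2 := by
    rintro rfl
    exact h3 hqH
  have hqs : q ∣ c ^ (t * 2 ^ i) + a ^ (t * 2 ^ i) := by
    rcases h4 with h4 | h4
    · rw [h4]
      exact hqH
    · rw [h4]
      exact Dvd.dvd.mul_left hqH 2
  have h6 := hQP c a t i q hca hq hq2 hqs
  refine ⟨q, hq, hq2, hqy, hqs, Nat.le_of_dvd ?_ h6⟩
  have := hq.two_le
  omega

/-- The coprime case. -/
theorem core (hF2 : StF2) (hPW : StPW) (hCF : StCF) (hQP : StQP) (hGQ : StGQ) (k y c a b : ℕ)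
    (hk : 0 < k) (h16 : 16 ∣ k) (hy : 0 < y) (hyk : y ≤ 2 ^ (2 * padicValNat 2 k - 1)) (ha : 0 < a)
    (hb : 0 < b) (hab : Nat.Coprime a b) : c ^ k ≠ a ^ k + y * b ^ k := by
  intro heq
  have h4v : 4 ≤ padicValNat 2 k := by
    have h1 : (2 : ℕ) ^ 4 ∣ k := by
      norm_num
      exact h16
    exact (padicValNat_dvd_iff_le hk.ne').mp h1
  obtain ⟨t, ht⟩ : 2 ^ padicValNat 2 k ∣ k := pow_padicValNat_dvd
  obtain ⟨n, hn⟩ : ∃ n, padicValNat 2 k = n + 2 := ⟨padicValNat 2 k - 2, by omega⟩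
  rw [hn] at ht hyk
  have hn2 : 2 ≤ n := by omega
  have ht0 : 0 < t := by
    rcases Nat.eq_zero_or_pos t with h | h
    · rw [h, mul_zero] at ht
      omega
    · exact h
  have hac : a < c := by
    have h1 : a ^ k < c ^ k := by
      rw [heq]
      have : 0 < y * b ^ k := Nat.mul_pos hy (pow_pos hb k)
      omega
    exact lt_of_pow_lt_pow_left₀ k (Nat.zero_le _) h1
  have hkv : 2 * (n + 2) ≤ k := by
    have h1 : n + 1 < 2 ^ (n + 1) := Nat.lt_two_pow_self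
    have h2 : 2 ^ (n + 2) = 2 * 2 ^ (n + 1) := by ring
    have h3 : 2 ^ (n + 2) ≤ k := by
      rw [ht]
      exact Nat.le_mul_of_pos_right _ ht0
    omega
  have hca : Nat.Coprime c a := by
    by_contra hnc
    obtain ⟨p, hp, hpc, hpa⟩ := Nat.Prime.not_coprime_iff_dvd.mp hnc
    have h1 : p ^ k ∣ y * b ^ k := by
      have h2 : p ^ k ∣ a ^ k + y * b ^ k := by
        rw [← heq]
        exact pow_dvd_pow_of_dvd hpc k
      exact (Nat.dvd_add_right (pow_dvd_pow_of_dvd hpa k)).mp h2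
    have h3 : Nat.Coprime p b := Nat.Coprime.coprime_dvd_left hpa hab
    have h4 : p ^ k ∣ y := (Nat.Coprime.pow k k h3).dvd_of_dvd_mul_right h1
    have h5 : p ^ k ≤ y := Nat.le_of_dvd hy h4
    have h6 : 2 ^ k ≤ p ^ k := Nat.pow_le_pow_left hp.two_le k
    have h7 : 2 ^ (2 * (n + 2) - 1) < 2 ^ k := Nat.pow_lt_pow_right (by norm_num) (by omega)
    omega
  obtain ⟨q1, hq1, _, hqy1, hqs1, hqb1⟩ := step hF2 hPW hCF hQP k y c a b t (n + 2) (n + 1) ht ht0 hy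
    ha hca hac (by omega) (by omega) heq
  obtain ⟨q2, hq2, hq22, hqy2, hqs2, hqb2⟩ := step hF2 hPW hCF hQP k y c a b t (n + 2) n ht ht0 hy
    ha hca hac hn2 (by omega) heq
  have hne : q1 ≠ q2 := by
    rintro rfl
    exact hGQ c a t n (n + 1) q1 hca hq1 hq22 (by omega) hqs2 hqs1
  have h1 : q1 * q2 ∣ y :=
    Nat.Coprime.mul_dvd_of_dvd_of_dvd ((Nat.coprime_primes hq1 hq2).mpr hne) hqy1 hqy2
  have h2 : q1 * q2 ≤ y := Nat.le_of_dvd hy h1
  have h3 : 2 ^ (n + 1 + 1) < q1 := by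
    have := hq1.two_le
    omega
  have h4 : 2 ^ (n + 1) < q2 := by
    have := hq2.two_le
    omega
  have h5 : 2 ^ (n + 1 + 1) * 2 ^ (n + 1) < q1 * q2 := Nat.mul_lt_mul'' h3 h4
  have h6 : 2 ^ (2 * (n + 2) - 1) = 2 ^ (n + 1 + 1) * 2 ^ (n + 1) := by
    rw [← pow_add]
    congr 1
    omega
  omega

end ISB_EQ

open ISB_EQ in
theorem sb_EQ (hF2 : StF2) (hPW : StPW) (hCF : StCF) (hQP : StQP) (hGQ : StGQ) : StEQ := by
  intro k y c a b hk h16 hy hyk ha hb heq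
  have hg : 0 < Nat.gcd a b := Nat.gcd_pos_of_pos_left b ha
  obtain ⟨a', ha'⟩ := Nat.gcd_dvd_left a b
  obtain ⟨b', hb'⟩ := Nat.gcd_dvd_right a b
  have hcop : Nat.Coprime a' b' := by
    have h1 := Nat.coprime_div_gcd_div_gcd hg
    have h2 : a / Nat.gcd a b = a' := Nat.div_eq_of_eq_mul_right hg ha'
    have h3 : b / Nat.gcd a b = b' := Nat.div_eq_of_eq_mul_right hg hb'
    rw [h2, h3] at h1
    exact h1
  have hgc : Nat.gcd a b ∣ c := by
    rw [← Nat.pow_dvd_pow_iff hk.ne', heq]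
    exact Dvd.dvd.add (pow_dvd_pow_of_dvd (Nat.gcd_dvd_left a b) k)
      (Dvd.dvd.mul_left (pow_dvd_pow_of_dvd (Nat.gcd_dvd_right a b) k) y)
  obtain ⟨c', hc'⟩ := hgc
  generalize Nat.gcd a b = g at ha' hb' hc' hg
  subst ha' hb' hc'
  have ha0 : 0 < a' := Nat.pos_of_mul_pos_left ha
  have hb0 : 0 < b' := Nat.pos_of_mul_pos_left hb
  apply core hF2 hPW hCF hQP hGQ k y c' a' b' hk h16 hy hyk ha0 hb0 hcop
  have h1 : g ^ k * c' ^ k = g ^ k * (a' ^ k + y * b' ^ k) := by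
    rw [mul_pow, mul_pow, mul_pow] at heq
    rw [heq]
    ring
  exact Nat.eq_of_mul_eq_mul_left (pow_pos hg k) h1

end Pool.Agent.Work.MP_4faf10_nt.SB
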