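import Pool.Agent.Work.MP_4faf10_nt.SB.StmtsQ

/-!
# MP_4faf10_nt, block SB, item F1: Fermat's right triangle theorem
-/

set_option autoImplicit false

namespace Pool.Agent.Work.MP_4faf10_nt.SB

namespace ISB_F1

/-- positive integers whose product is a square and which are coprime are squares -/
theorem sqs {u v w : ℤ} (hu : 0 < u) (hv : 0 < v) (hg : Int.gcd u v = 1) (h : u * v = w ^ 2) :
    (∃ p, u = p ^ 2) ∧ ∃ q, v = q ^ 2 := by
  constructor
  · obtain ⟨p, hp | hp⟩ := Int.sq_of_gcd_eq_one hg h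
    · exact ⟨p, hp⟩
    · exfalso; nlinarith [sq_nonneg p]
  · obtain ⟨q, hq | hq⟩ := Int.sq_of_gcd_eq_one ((Int.gcd_comm v u).trans hg)
      ((mul_comm v u).trans h)
    · exact ⟨q, hq⟩
    · exfalso; nlinarith [sq_nonneg q]

theorem gcd_one_of_dvd {x x' y y' : ℤ} (hx : x' ∣ x) (hy : y' ∣ y) (h : Int.gcd x y = 1) :
    Int.gcd x' y' = 1 :=
  Int.isCoprime_iff_gcd_eq_one.mp
    ((Int.isCoprime_iff_gcd_eq_one.mpr h).of_isCoprime_of_dvd_left hx |>.of_isCoprime_of_dvd_right hy)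

/-- the second half of the descent -/
theorem half (a r t : ℤ) (ha : 0 < a) (ht : t ≠ 0) (hr : r % 2 = 1)
    (hg : Int.gcd (r ^ 2) (2 * t ^ 2) = 1) (h : a ^ 2 = (r ^ 2) ^ 2 + (2 * t ^ 2) ^ 2) :
    ∃ p q : ℤ, q ≠ 0 ∧ r ≠ 0 ∧ p ^ 4 = q ^ 4 + r ^ 2 ∧ p.natAbs < a.natAbs := by
  have hpy : PythagoreanTriple (r ^ 2) (2 * t ^ 2) a := by
    unfold PythagoreanTriple
    linarith [h, sq a, sq (r ^ 2), sq (2 * t ^ 2)]
  have hr2 : (r ^ 2) % 2 = 1 := by
    rw [pow_two, Int.mul_emod, hr]; norm_num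
  obtain ⟨u, v, h1, h2, h3, h4, _, h6⟩ := hpy.coprime_classification' hg hr2 ha
  have huv : u * v = t ^ 2 := by linarith
  have ht2 : 0 < t ^ 2 := by positivity
  have hu : 0 < u := by
    rcases h6.lt_or_eq with h | h
    · exact h
    · rw [← h] at huv; rw [← huv] at ht2; simp at ht2
  have hv : 0 < v := by
    rw [← huv] at ht2
    exact (mul_pos_iff_of_pos_left hu).mp ht2
  obtain ⟨⟨p, hp⟩, ⟨q, hq⟩⟩ := sqs hu hv h4 huv
  have hr0 : r ≠ 0 := by
    intro h0; rw [h0] at hr; norm_num at hr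
  have hq0 : q ≠ 0 := by
    intro h0; rw [hq, h0] at hv; norm_num at hv
  refine ⟨p, q, hq0, hr0, ?_, ?_⟩
  · have : r ^ 2 = (p ^ 2) ^ 2 - (q ^ 2) ^ 2 := by rw [← hp, ← hq]; exact h1
    linarith [this, pow_mul p 2 2, pow_mul q 2 2]
  · have h7 : p ^ 2 < a ^ 2 := by
      rw [← hp]
      have : u < a := by nlinarith
      nlinarith
    exact Int.natAbs_lt_iff_sq_lt.mpr h7

/-- the descent step for coprime numbers -/
theorem step (a b c : ℤ) (ha : 0 < a) (hb : b ≠ 0) (hc : c ≠ 0) (hg : Int.gcd a b = 1)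
    (h : a ^ 4 = b ^ 4 + c ^ 2) :
    ∃ p q r : ℤ, q ≠ 0 ∧ r ≠ 0 ∧ p ^ 4 = q ^ 4 + r ^ 2 ∧ p.natAbs < a.natAbs := by
  have hpy : PythagoreanTriple (b ^ 2) c (a ^ 2) := by
    unfold PythagoreanTriple
    nlinarith [h]
  have hcop : IsCoprime (b ^ 2) c := by
    have h1 : IsCoprime (a ^ 4) (b ^ 4) :=
      ((Int.isCoprime_iff_gcd_eq_one.mpr hg).pow_left).pow_right
    rw [h] at h1
    -- b ^ 4 + c ^ 2 and b ^ 4 coprime
    have h2 : IsCoprime (c ^ 2) (b ^ 4) := by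
      have := h1.add_mul_right_left (-1)
      have e' : b ^ 4 + c ^ 2 + -1 * b ^ 4 = c ^ 2 := by ring
      rw [e'] at this
      exact this
    have h3 : IsCoprime c b := (IsCoprime.pow_iff (by norm_num) (by norm_num)).mp h2
    exact h3.symm.pow_left
  have hgc : Int.gcd (b ^ 2) c = 1 := Int.isCoprime_iff_gcd_eq_one.mp hcop
  have ha2 : 0 < a ^ 2 := by positivity
  have hb2 : 0 < b ^ 2 := by positivity
  rcases Int.emod_two_eq_zero_or_one b with hb0 | hb1
  · -- b even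
    have hc1 : c % 2 = 1 := by
      rcases Int.emod_two_eq_zero_or_one c with h0 | h0
      · exfalso
        have d1 : (2 : ℤ) ∣ b ^ 2 := (Int.dvd_of_emod_eq_zero hb0).trans (dvd_pow_self b two_ne_zero)
        have d2 : (2 : ℤ) ∣ c := Int.dvd_of_emod_eq_zero h0
        have d3 : (2 : ℤ) ∣ (Int.gcd (b ^ 2) c : ℤ) := Int.dvd_coe_gcd d1 d2
        rw [hgc] at d3
        norm_num at d3
      · exact h0
    obtain ⟨m, n, h1, h2, h3, h4, h5, h6⟩ :=
      hpy.symm.coprime_classification' ((Int.gcd_comm c (b ^ 2)).trans hgc) hc1 ha2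
    have hmn : 0 < 2 * m * n := by rw [← h2]; exact hb2
    have hm : 0 < m := by
      rcases h6.lt_or_eq with h | h
      · exact h
      · rw [← h] at hmn; simp at hmn
    have hn : 0 < n := by
      have : 0 < 2 * m := by linarith
      exact (mul_pos_iff_of_pos_left this).mp hmn
    obtain ⟨b', hb'⟩ := Int.dvd_of_emod_eq_zero hb0
    rcases h5 with ⟨hm0, hn1⟩ | ⟨hm1, hn0⟩
    · obtain ⟨m', hm'⟩ := Int.dvd_of_emod_eq_zero hm0
      have e : m' * n = b' ^ 2 := by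
        rw [hb', hm'] at h2
        nlinarith
      have hm'0 : 0 < m' := by linarith
      have hg' : Int.gcd m' n = 1 :=
        gcd_one_of_dvd (hm' ▸ Dvd.intro_left 2 rfl) dvd_rfl h4
      obtain ⟨⟨t, ht⟩, ⟨r, hr⟩⟩ := sqs hm'0 hn hg' e
      have hr1 : r % 2 = 1 := by
        rcases Int.emod_two_eq_zero_or_one r with h0 | h0
        · exfalso
          rw [hr, pow_two, Int.mul_emod, h0] at hn1
          norm_num at hn1
        · exact h0
      have ht0 : t ≠ 0 := by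
        intro h0; rw [ht, h0] at hm'0; norm_num at hm'0
      have hgg : Int.gcd (r ^ 2) (2 * t ^ 2) = 1 := by
        rw [← hr, ← ht, ← hm', Int.gcd_comm]; exact h4
      obtain ⟨p, q, hq, hr0, hp, hlt⟩ := half a r t ha ht0 hr1 hgg
        (by rw [← hr, ← ht, ← hm', h3]; ring)
      exact ⟨p, q, r, hq, hr0, hp, hlt⟩
    · obtain ⟨n', hn'⟩ := Int.dvd_of_emod_eq_zero hn0
      have e : m * n' = b' ^ 2 := by
        rw [hb', hn'] at h2
        nlinarith
      have hn'0 : 0 < n' := by linarith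
      have hg' : Int.gcd m n' = 1 :=
        gcd_one_of_dvd dvd_rfl (hn' ▸ Dvd.intro_left 2 rfl) h4
      obtain ⟨⟨r, hr⟩, ⟨t, ht⟩⟩ := sqs hm hn'0 hg' e
      have hr1 : r % 2 = 1 := by
        rcases Int.emod_two_eq_zero_or_one r with h0 | h0
        · exfalso
          rw [hr, pow_two, Int.mul_emod, h0] at hm1
          norm_num at hm1
        · exact h0
      have ht0 : t ≠ 0 := by
        intro h0; rw [ht, h0] at hn'0; norm_num at hn'0
      have hgg : Int.gcd (r ^ 2) (2 * t ^ 2) = 1 := by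
        rw [← hr, ← ht, ← hn']; exact h4
      obtain ⟨p, q, hq, hr0, hp, hlt⟩ := half a r t ha ht0 hr1 hgg
        (by rw [← hr, ← ht, ← hn', h3])
      exact ⟨p, q, r, hq, hr0, hp, hlt⟩
  · -- b odd
    have hb21 : (b ^ 2) % 2 = 1 := by
      rw [pow_two, Int.mul_emod, hb1]; norm_num
    obtain ⟨m, n, h1, h2, h3, _, _, _⟩ := hpy.coprime_classification' hgc hb21 ha2
    have hn : n ≠ 0 := by
      intro h0; apply hc; rw [h2, h0]; ring
    refine ⟨m, n, a * b, hn, mul_ne_zero ha.ne' hb, ?_, ?_⟩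
    · rw [mul_pow, h1, h3]; ring
    · apply Int.natAbs_lt_iff_sq_lt.mpr
      have : 0 < n ^ 2 := by positivity
      linarith

theorem main (N : ℕ) : ∀ a b c : ℤ, a.natAbs = N → b ≠ 0 → c ≠ 0 → a ^ 4 ≠ b ^ 4 + c ^ 2 := by
  induction N using Nat.strong_induction_on with
  | _ N ih =>
    intro a b c haN hb hc h
    have ha : a ≠ 0 := by
      rintro rfl
      have : 0 < b ^ 4 := by positivity
      nlinarith [sq_nonneg c]
    -- coprime part
    obtain ⟨g, a', b', hg0, hg1, e1, e2⟩ : ∃ (g : ℤ) (a' b' : ℤ), 0 < g ∧ Int.gcd a' b' = 1 ∧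
        a = a' * g ∧ b = b' * g := by
      have hpos : 0 < Int.gcd a b := Int.gcd_pos_of_ne_zero_left b ha
      obtain ⟨a', b', h1, h2, h3⟩ := Int.exists_gcd_one hpos
      exact ⟨(Int.gcd a b : ℤ), a', b', by exact_mod_cast hpos, h1, h2, h3⟩
    have hgc : g ^ 2 ∣ c := by
      rw [← Int.pow_dvd_pow_iff two_ne_zero]
      refine ⟨a' ^ 4 - b' ^ 4, ?_⟩
      have : c ^ 2 = a ^ 4 - b ^ 4 := by linarith
      rw [this, e1, e2]; ring
    obtain ⟨c', e3⟩ := hgc
    have ha' : a' ≠ 0 := by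
      rintro rfl; apply ha; rw [e1]; ring
    have hb' : b' ≠ 0 := by
      rintro rfl; apply hb; rw [e2]; ring
    have hc' : c' ≠ 0 := by
      rintro rfl; apply hc; rw [e3]; ring
    have h' : a' ^ 4 = b' ^ 4 + c' ^ 2 := by
      have hg4 : g ^ 4 ≠ 0 := by positivity
      apply mul_right_cancel₀ hg4
      rw [e1, e2, e3] at h
      linarith [h, mul_pow a' g 4, mul_pow b' g 4, mul_pow (g ^ 2) c' 2, pow_mul g 2 2,
        add_mul (b' ^ 4) (c' ^ 2) (g ^ 4), mul_comm (c' ^ 2) (g ^ 4)]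
    have hle : a'.natAbs ≤ a.natAbs := by
      rw [e1, Int.natAbs_mul]
      exact Nat.le_mul_of_pos_right _ (Int.natAbs_pos.mpr hg0.ne')
    have habs : 0 < |a'| := abs_pos.mpr ha'
    have hgabs : Int.gcd |a'| b' = 1 := by
      rw [Int.gcd_def, Int.natAbs_abs, ← Int.gcd_def]; exact hg1
    have habs4 : |a'| ^ 4 = a' ^ 4 := by
      rw [show (4 : ℕ) = 2 * 2 from rfl, pow_mul, pow_mul, sq_abs]
    obtain ⟨p, q, r, hq, hr, hp, hlt⟩ := step |a'| b' c' habs hb' hc' hgabs (habs4.trans h')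
    rw [Int.natAbs_abs] at hlt
    exact ih p.natAbs (lt_of_lt_of_le hlt (hle.trans haN.le)) p q r rfl hq hr hp

end ISB_F1

theorem sb_F1 : StF1 := by
  intro a b c hb hc h
  have h1 := ISB_F1.main (a : ℤ).natAbs (a : ℤ) (b : ℤ) (c : ℤ) rfl
    (by exact_mod_cast hb.ne') (by exact_mod_cast hc.ne')
  apply h1
  exact_mod_cast h

end Pool.Agent.Work.MP_4faf10_nt.SB
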