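import Pool.Agent.Work.MP_4faf10_nt.SB.StmtsQ

/-!
# MP_4faf10_nt, block SB, item F2 (helper14)
-/

set_option autoImplicit false

namespace Pool.Agent.Work.MP_4faf10_nt.SB

namespace ISB_F2

theorem aux (hF1 : StF1) (x y z : ℕ) (hx : 0 < x) (hy : 0 < y) (h : x ^ 4 + y ^ 4 = 2 * z ^ 2)
    (hlt : y < x) : False := by
  have h1 : y ^ 4 < x ^ 4 := Nat.pow_lt_pow_left hlt (by norm_num)
  have h2 : y ^ 4 < z ^ 2 := by omega
  obtain ⟨D, hD⟩ := Nat.exists_eq_add_of_lt h2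
  have h3 : x ^ 4 = y ^ 4 + 2 * (D + 1) := by omega
  refine hF1 z (x * y) (D + 1) (Nat.mul_pos hx hy) (Nat.succ_pos D) ?_
  have h4 : z ^ 4 = (z ^ 2) ^ 2 := by ring
  rw [h4, hD, mul_pow, h3]
  ring

end ISB_F2

theorem sb_F2 (hF1 : StF1) : StF2 := by
  intro x y z hx hy h
  rcases lt_trichotomy x y with h1 | h1 | h1
  · exact (ISB_F2.aux hF1 y x z hy hx (by rw [add_comm]; exact h) h1).elim
  · exact h1
  · exact (ISB_F2.aux hF1 x y z hx hy h h1).elim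

end Pool.Agent.Work.MP_4faf10_nt.SB
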