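import Pool.Agent.Work.MP_4faf10_nt.SB.StmtsQ

/-!
Block SB of problem 4faf10, item PW.
-/

set_option autoImplicit false

namespace Pool.Agent.Work.MP_4faf10_nt.SB

theorem sb_PW : StPW := by
  intro k y b H S hy h hHS hHy
  have h1 : y ∣ H * S := ⟨b ^ k, h⟩
  obtain ⟨T, rfl⟩ := hHy.symm.dvd_of_dvd_mul_left h1
  have h2 : H * T = b ^ k := by
    apply Nat.eq_of_mul_eq_mul_left hy
    rw [← h]
    ring
  have h3 : Nat.Coprime H T := Nat.Coprime.coprime_dvd_right ⟨y, mul_comm y T⟩ hHS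
  have h4 : IsUnit (GCDMonoid.gcd H T) := Nat.isUnit_iff.2 h3
  exact exists_eq_pow_of_mul_eq_pow h4 h2

end Pool.Agent.Work.MP_4faf10_nt.SB
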