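import Pool.Agent.Work.MP_4faf10_nt.SB.StmtsQ

/-!
# MP_4faf10_nt, block SB, item QP: prime factors are 1 modulo a power of two (helper57)
-/

set_option autoImplicit false

namespace Pool.Agent.Work.MP_4faf10_nt.SB

theorem ISB_QP.neg_one_ne {q : ℕ} (hq : q.Prime) (hq2 : q ≠ 2) : (-1 : ZMod q) ≠ 1 := by
  haveI : Fact (2 < q) := ⟨lt_of_le_of_ne hq.two_le (Ne.symm hq2)⟩
  exact ZMod.neg_one_ne_one

theorem sb_QP : StQP := by
  intro c a t i q hca hq hq2 hdvd
  haveI : Fact q.Prime := ⟨hq⟩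
  have hne := ISB_QP.neg_one_ne hq hq2
  have h0 : (c : ZMod q) ^ (t * 2 ^ i) + (a : ZMod q) ^ (t * 2 ^ i) = 0 := by
    have h := (ZMod.natCast_eq_zero_iff _ q).2 hdvd
    push_cast at h
    exact h
  have ha : (a : ZMod q) ≠ 0 := by
    intro ha
    by_cases ht : t = 0
    · rw [ht, zero_mul, pow_zero, pow_zero] at h0
      exact hne (by linear_combination -h0)
    · have hpos : t * 2 ^ i ≠ 0 := by positivity
      rw [ha, zero_pow hpos, add_zero] at h0
      have hc : (c : ZMod q) = 0 := (pow_eq_zero_iff hpos).1 h0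
      have h1 : q ∣ c := (ZMod.natCast_eq_zero_iff c q).1 hc
      have h2 : q ∣ a := (ZMod.natCast_eq_zero_iff a q).1 ha
      exact hq.one_lt.ne' (Nat.eq_one_of_dvd_coprimes hca h1 h2)
  have hz : ((c : ZMod q) / a) ^ (t * 2 ^ i) = -1 := by
    rw [div_pow, div_eq_iff (pow_ne_zero _ ha)]
    linear_combination h0
  have hz1 : (((c : ZMod q) / a) ^ t) ^ 2 ^ i = -1 := by
    rw [← pow_mul]
    exact hz
  have hz2 : (((c : ZMod q) / a) ^ t) ^ 2 ^ (i + 1) = 1 := by
    rw [pow_succ, pow_mul, hz1]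
    norm_num
  have hord : orderOf (((c : ZMod q) / a) ^ t) = 2 ^ (i + 1) := by
    refine orderOf_eq_prime_pow ?_ hz2
    rw [hz1]
    exact hne
  have hz0 : ((c : ZMod q) / a) ^ t ≠ 0 := by
    intro h
    rw [h, zero_pow (by positivity)] at hz2
    exact zero_ne_one hz2
  rw [← hord]
  exact ZMod.orderOf_dvd_card_sub_one hz0

end Pool.Agent.Work.MP_4faf10_nt.SB
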