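import Pool.Agent.Work.MP_4faf10_nt.SB.StmtsQ

set_option autoImplicit false

namespace Pool.Agent.Work.MP_4faf10_nt.SB

theorem sb_TV (hUE : StUE) (hQD : StQD) (hCT : StCT) (hEQ : StEQ) : StTV := by
  intro k m c a hk h16 hm hmq hrep x x'
  by_contra hcon
  have hcon' : ∀ l, a l ≠ x → a l = x' := by
    intro l hl
    by_contra h
    exact hcon ⟨l, hl, h⟩
  have hk0 : k ≠ 0 := hk.ne'
  have heven : Even k := (even_iff_two_dvd).2 (dvd_trans (by norm_num) h16)
  have hk16 : 16 ≤ k := Nat.le_of_dvd hk h16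
  have hk4 : 4 ≤ k := by omega
  have hv : 4 ≤ padicValNat 2 k := by
    have h2 : 2 ^ 4 ∣ k := by
      norm_num
      exact h16
    exact (padicValNat_dvd_iff_le hk0).1 h2
  have hq1 : 1 < 2 ^ (padicValNat 2 k + 2) := Nat.one_lt_two_pow (by omega)
  have hqd : 2 ^ (padicValNat 2 k + 2) ∣ 2 ^ k := pow_dvd_pow 2 (hQD.2 k heven hk4)
  obtain ⟨e, d, b, i, -, ha, -, hbi, hbl⟩ := hCT 2 (2 ^ (padicValNat 2 k + 2)) k m c a Nat.prime_two hq1 hmq
    hqd hk0 (fun y hy => hUE k y hk0 heven hy) hm hrep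
  have hne : ∀ l, l ≠ i → a l ≠ a i := by
    intro l hl h
    rw [ha l, ha i] at h
    have h3 : b l = b i := Nat.eq_of_mul_eq_mul_left (pow_pos (by norm_num) e) h
    exact hbi (h3 ▸ hbl l hl)
  obtain ⟨z, hz⟩ : ∃ z, ∀ l, l ≠ i → a l = z := by
    by_cases hi : a i = x
    · refine ⟨x', fun l hl => hcon' l ?_⟩
      rw [← hi]
      exact hne l hl
    · refine ⟨x, fun l hl => ?_⟩
      by_contra h
      exact hne l hl ((hcon' l h).trans (hcon' i hi).symm)
  have hcard : (Finset.univ.erase i : Finset (Fin m)).card = m - 1 := by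
    rw [Finset.card_erase_of_mem (Finset.mem_univ i), Finset.card_univ, Fintype.card_fin]
  have hsum : c ^ k = a i ^ k + (m - 1) * z ^ k := by
    rw [hrep.2, ← Finset.add_sum_erase Finset.univ (fun l => a l ^ k) (Finset.mem_univ i)]
    congr 1
    rw [Finset.sum_congr rfl (fun l hl => by
      rw [hz l (Finset.ne_of_mem_erase hl)] : ∀ l ∈ Finset.univ.erase i, a l ^ k = z ^ k),
      Finset.sum_const, hcard, smul_eq_mul]
  have hzpos : 0 < z := by
    have hne' : (Finset.univ.erase i : Finset (Fin m)).Nonempty := by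
      rw [← Finset.card_pos, hcard]
      omega
    obtain ⟨l, hl⟩ := hne'
    rw [← hz l (Finset.ne_of_mem_erase hl)]
    exact hrep.1 l
  have hle : m - 1 ≤ 2 ^ (2 * padicValNat 2 k - 1) := by
    have h1 : 2 ^ (padicValNat 2 k + 2) ≤ 2 ^ (2 * padicValNat 2 k - 1) :=
      Nat.pow_le_pow_right (by norm_num) (by omega)
    omega
  exact hEQ k (m - 1) c (a i) z hk h16 (by omega) hle (hrep.1 i) hzpos hsum

end Pool.Agent.Work.MP_4faf10_nt.SB
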