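import Pool.Agent.Work.MP_4faf10_nt.SB.FinalQ
import Pool.Agent.Work.MP_4faf10_nt.SB.I_UE
import Pool.Agent.Work.MP_4faf10_nt.SB.I_QD
import Pool.Agent.Work.MP_4faf10_nt.SB.I_CT
import Pool.Agent.Work.MP_4faf10_nt.SB.I_F1
import Pool.Agent.Work.MP_4faf10_nt.SB.I_F2
import Pool.Agent.Work.MP_4faf10_nt.SB.I_PW
import Pool.Agent.Work.MP_4faf10_nt.SB.I_CF
import Pool.Agent.Work.MP_4faf10_nt.SB.I_QP
import Pool.Agent.Work.MP_4faf10_nt.SB.I_GQ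
import Pool.Agent.Work.MP_4faf10_nt.SB.I_EQ
import Pool.Agent.Work.MP_4faf10_nt.SB.I_TV

/-!
# MP_4faf10_nt, block SB, part Q: assembly
-/

set_option autoImplicit false

namespace Pool.Agent.Work.MP_4faf10_nt.SB

theorem eq_Q : StEQ := sb_EQ (sb_F2 sb_F1) sb_PW sb_CF sb_QP sb_GQ

theorem tq : StTQ := sb_TQ (sb_TV sb_UE sb_QD sb_CT eq_Q) eq_Q

end Pool.Agent.Work.MP_4faf10_nt.SB
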