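import Pool.Agent.Work.MP_4faf10_nt.SB.StmtsQ

/-!
# Item GQ of block SB: different primes
-/

set_option autoImplicit false

namespace Pool.Agent.Work.MP_4faf10_nt.SB

namespace ISB_GQ

lemma dvd_of_zero {q n s : ℕ} (hq : q.Prime) (h : ((n : ZMod q)) ^ s = 0) : q ∣ n := by
  have h1 : q ∣ n ^ s := by
    rw [← ZMod.natCast_eq_zero_iff]
    push_cast
    exact h
  exact hq.dvd_of_dvd_pow h1

lemma cast_zero {q c a s : ℕ} (h : q ∣ c ^ s + a ^ s) : (c : ZMod q) ^ s + (a : ZMod q) ^ s = 0 := by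
  have h1 := (ZMod.natCast_eq_zero_iff _ q).mpr h
  push_cast at h1
  exact h1

end ISB_GQ

open ISB_GQ in
theorem sb_GQ : StGQ := by
  intro c a t i j q hca hq hq2 hij h1 h2
  have : Fact q.Prime := ⟨hq⟩
  obtain ⟨m, rfl⟩ : ∃ m, j = i + m + 1 := ⟨j - i - 1, by omega⟩
  have e1 := cast_zero h1
  have e2 := cast_zero h2
  have hx : (c : ZMod q) ^ (t * 2 ^ i) = -(a : ZMod q) ^ (t * 2 ^ i) := eq_neg_of_add_eq_zero_left e1
  have hp : ∀ z : ZMod q, z ^ (t * 2 ^ (i + m + 1)) = ((z ^ (t * 2 ^ i)) ^ 2) ^ (2 ^ m) := by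
    intro z
    rw [← pow_mul, ← pow_mul]
    congr 1
    ring
  rw [hp, hp, hx, neg_sq, ← two_mul] at e2
  have h20 : (2 : ZMod q) ≠ 0 := by
    intro h
    have h3 : q ∣ 2 := by
      rw [← ZMod.natCast_eq_zero_iff]
      exact_mod_cast h
    exact hq2 ((Nat.prime_dvd_prime_iff_eq hq Nat.prime_two).mp h3)
  have e3 : ((a : ZMod q) ^ (t * 2 ^ i)) = 0 := by
    rcases mul_eq_zero.mp e2 with h | h
    · exact absurd h h20
    · have h4 := (pow_eq_zero_iff (by positivity : (2 : ℕ) ^ m ≠ 0)).mp h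
      exact (pow_eq_zero_iff (by norm_num : (2 : ℕ) ≠ 0)).mp h4
  have e4 : ((c : ZMod q) ^ (t * 2 ^ i)) = 0 := by rw [hx, e3, neg_zero]
  have ha := dvd_of_zero hq e3
  have hc := dvd_of_zero hq e4
  have h5 := Nat.dvd_gcd hc ha
  rw [hca] at h5
  exact hq.one_lt.ne' (Nat.dvd_one.mp h5)

end Pool.Agent.Work.MP_4faf10_nt.SB
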