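import Pool.Agent.Work.MP_4faf10_nt.SB.I_EQ2
import Pool.Agent.Work.MP_4faf10_nt.SB.I_TV
import Pool.Agent.Work.MP_4faf10_nt.SB.I_F1
import Pool.Agent.Work.MP_4faf10_nt.SB.I_F2
import Pool.Agent.Work.MP_4faf10_nt.SB.I_PW
import Pool.Agent.Work.MP_4faf10_nt.SB.I_CF
import Pool.Agent.Work.MP_4faf10_nt.SB.I_QP
import Pool.Agent.Work.MP_4faf10_nt.SB.I_GQ
import Pool.Agent.Work.MP_4faf10_nt.SB.I_UE
import Pool.Agent.Work.MP_4faf10_nt.SB.I_QD
import Pool.Agent.Work.MP_4faf10_nt.SB.I_CT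

/-!
# At least three different terms: assembly of the strong form
-/

set_option autoImplicit false

namespace Pool.Agent.Work.MP_4faf10_nt.SB

theorem eq2 : StEQ2 := sb_EQ2 (sb_F2 sb_F1) sb_PW sb_CF sb_QP sb_GQ

theorem tv : StTV := sb_TV sb_UE sb_QD sb_CT (sb_EQ (sb_F2 sb_F1) sb_PW sb_CF sb_QP sb_GQ)

/-- Not all terms but one are equal. -/
theorem one_odd (k m c : ℕ) (a : Fin m → ℕ) (hk : 0 < k) (h8 : 8 ∣ k) (hm : 2 ≤ m)
    (hrep : Rep k m c a)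
    (hmk : m ≤ 2 ^ (padicValNat 2 k * (padicValNat 2 k + 1) / 2 - 3) + 1) (i : Fin m) (z : ℕ) :
    ∃ l, l ≠ i ∧ a l ≠ z := by
  by_contra hcon
  have hz : ∀ l, l ≠ i → a l = z := by
    intro l hl
    by_contra h
    exact hcon ⟨l, hl, h⟩
  have hcard : (Finset.univ.erase i : Finset (Fin m)).card = m - 1 := by
    rw [Finset.card_erase_of_mem (Finset.mem_univ i), Finset.card_univ, Fintype.card_fin]
  have hsum : c ^ k = a i ^ k + (m - 1) * z ^ k := by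
    rw [hrep.2, ← Finset.add_sum_erase Finset.univ (fun l => a l ^ k) (Finset.mem_univ i)]
    congr 1
    rw [Finset.sum_congr rfl (fun l hl => by
      rw [hz l (Finset.ne_of_mem_erase hl)] : ∀ l ∈ Finset.univ.erase i, a l ^ k = z ^ k),
      Finset.sum_const, hcard, smul_eq_mul]
  have hzpos : 0 < z := by
    have hne' : (Finset.univ.erase i : Finset (Fin m)).Nonempty := by
      rw [← Finset.card_pos, hcard]
      omega
    obtain ⟨l, hl⟩ := hne'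
    rw [← hz l (Finset.ne_of_mem_erase hl)]
    exact hrep.1 l
  exact eq2 k (m - 1) c (a i) z hk h8 (by omega) (by omega) (hrep.1 i) hzpos hsum

theorem tq2 : ∀ (k m c : ℕ) (a : Fin m → ℕ), 0 < k → 2 ≤ m → Rep k m c a →
    (16 ∣ k → m < 2 ^ (padicValNat 2 k + 2) → ∀ x x' : ℕ, ∃ l, a l ≠ x ∧ a l ≠ x') ∧
    (8 ∣ k → m ≤ 2 ^ (padicValNat 2 k * (padicValNat 2 k + 1) / 2 - 3) + 1 →
      ∀ (i : Fin m) (x : ℕ), ∃ l, l ≠ i ∧ a l ≠ x) := by
  intro k m c a hk hm hR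
  exact ⟨fun h16 hmk => tv k m c a hk h16 hm hmk hR,
    fun h8 hmk i x => one_odd k m c a hk h8 hm hR hmk i x⟩

end Pool.Agent.Work.MP_4faf10_nt.SB
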