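import Pool.Agent.Work.MP_4faf10_nt.SB.Stmts

/-!
# MP_4faf10_nt, block SB: the theorem from the items
-/

set_option autoImplicit false

namespace Pool.Agent.Work.MP_4faf10_nt.SB

theorem odd_part (hUO : StUO) (hQD : StQD) (hCT : StCT) (hRD : StRD) (hLO : StLO) (hHM : StHM)
    (k m c : ℕ) (a : Fin m → ℕ) (hk : k ≠ 0) (hm : 2 ≤ m) (hR : Rep k m c a) (p : ℕ)
    (hp : p.Prime) (hp2 : p ≠ 2) (hpk : (p - 1) ∣ k) (hmq : m < p ^ (padicValNat p k + 1)) :
    p ^ (k - padicValNat p k) < (2 * c) ^ Nat.totient (p - 1) ∧ One p m c a := by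
  have hq : 1 < p ^ (padicValNat p k + 1) := Nat.one_lt_pow (Nat.succ_ne_zero _) hp.one_lt
  obtain ⟨e, d, b, i, hc, hab, hd, hbi, hbl⟩ := hCT p (p ^ (padicValNat p k + 1)) k m c a hp hq hmq
    (pow_dvd_pow p (hQD.1 p k hp hk)) hk (fun x hx => hUO p k x hp hk hpk hx) hm hR
  obtain ⟨h1, hdc, hb0, hbd, hdiv⟩ := hRD p k m c a e d b i hp hk hm hR hc hab hd hbi hbl
  refine ⟨?_, h1⟩
  exact lt_of_lt_of_le (hHM p _ d (b i) hp hb0 hbd hbi hd (hLO p k d (b i) hp hp2 hk hpk hb0 hbd hd hbi hdiv))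
    (Nat.pow_le_pow_left (Nat.mul_le_mul_left 2 hdc) _)

theorem even_part (hUE : StUE) (hQD : StQD) (hCT : StCT) (hRD : StRD) (hL2 : StL2)
    (k m c : ℕ) (a : Fin m → ℕ) (hm : 2 ≤ m) (hR : Rep k m c a) (hke : Even k) (hk4 : 4 ≤ k)
    (hmq : m < 2 ^ (padicValNat 2 k + 2)) :
    2 ^ (k - padicValNat 2 k) < 2 * c ∧ One 2 m c a := by
  have hk : k ≠ 0 := by omega
  have hq : 1 < 2 ^ (padicValNat 2 k + 2) := Nat.one_lt_pow (Nat.succ_ne_zero _) (by norm_num)
  obtain ⟨e, d, b, i, hc, hab, hd, hbi, hbl⟩ := hCT 2 (2 ^ (padicValNat 2 k + 2)) k m c a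
    Nat.prime_two hq hmq (pow_dvd_pow 2 (hQD.2 k hke hk4)) hk (fun x hx => hUE k x hk hke hx) hm hR
  obtain ⟨h1, hdc, hb0, hbd, hdiv⟩ := hRD 2 k m c a e d b i Nat.prime_two hk hm hR hc hab hd hbi hbl
  exact ⟨lt_of_lt_of_le (hL2 k d (b i) hk hke hbd hd hbi hdiv) (Nat.mul_le_mul_left 2 hdc), h1⟩

theorem of_val {p k X : ℕ} (hp : p.Prime) (hk : k ≠ 0) (h : p ^ (k - padicValNat p k) < X) :
    p ^ k < k * X := by
  have hv : p ^ padicValNat p k ≤ k := Nat.le_of_dvd (Nat.pos_of_ne_zero hk) pow_padicValNat_dvd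
  have hle : padicValNat p k ≤ k :=
    le_trans (Nat.lt_pow_self hp.one_lt).le hv
  calc p ^ k = p ^ padicValNat p k * p ^ (k - padicValNat p k) := by
        rw [← pow_add]
        congr 1
        omega
    _ < p ^ padicValNat p k * X := Nat.mul_lt_mul_of_pos_left h (pow_pos hp.pos _)
    _ ≤ k * X := Nat.mul_le_mul_right _ hv

theorem sb_FN (hUO : StUO) (hUE : StUE) (hQD : StQD) (hCT : StCT) (hRD : StRD) (hLO : StLO)
    (hHM : StHM) (hL2 : StL2) (hNG : StNG) (hVS : StVS) : StFN := by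
  refine ⟨?_, ?_, ?_, ?_⟩
  · intro k m c a hk hm hR
    refine ⟨?_, ?_, ?_⟩
    · intro p hp hp2 hpk hmq
      exact odd_part hUO hQD hCT hRD hLO hHM k m c a hk hm hR p hp hp2 hpk hmq
    · intro hke hk4 hmq
      exact even_part hUE hQD hCT hRD hL2 k m c a hm hR hke hk4 hmq
    · intro j n hj hn hjn
      subst hjn
      exact hNG j n m c (den j n) a hm hj hn hR (fun x => hVS j n x hn)
  · intro s m c a hs hm hR hms
    have h2s : 4 ≤ 2 ^ s := by
      calc 4 = 2 ^ 2 := by norm_num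
        _ ≤ 2 ^ s := Nat.pow_le_pow_right (by norm_num) hs
    have hev : Even (2 ^ s) := (Nat.even_pow.2 ⟨even_two, by omega⟩)
    have hv : padicValNat 2 (2 ^ s) = s := padicValNat.prime_pow s
    have h := (even_part hUE hQD hCT hRD hL2 (2 ^ s) m c a hm hR hev h2s (by
      rw [hv, pow_add]
      omega)).1
    have h3 := of_val Nat.prime_two (by positivity) h
    calc 2 ^ 2 ^ s < 2 ^ s * (2 * c) := h3
      _ = 2 * 2 ^ s * c := by ring
  · intro k m c a hke hk4 hm hm7 hR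
    have hk : k ≠ 0 := by omega
    have hv : 1 ≤ padicValNat 2 k := by
      have := (padicValNat_dvd_iff_le (p := 2) hk (n := 1)).1 (by rw [pow_one]; exact hke.two_dvd)
      exact this
    have h := (even_part hUE hQD hCT hRD hL2 k m c a hm hR hke hk4 (by
      have h8 : 2 ^ 3 ≤ 2 ^ (padicValNat 2 k + 2) := Nat.pow_le_pow_right (by norm_num) (by omega)
      omega)).1
    have h3 := of_val Nat.prime_two hk h
    calc 2 ^ k < k * (2 * c) := h3
      _ = 2 * k * c := by ring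
  · intro k m c a hk6 hk0 hm hm8 hR
    have hk : k ≠ 0 := by omega
    haveI : Fact (Nat.Prime 3) := ⟨Nat.prime_three⟩
    have hv : 1 ≤ padicValNat 3 k := by
      have := (padicValNat_dvd_iff_le (p := 3) hk (n := 1)).1 (by
        rw [pow_one]
        exact dvd_trans (by norm_num) hk6)
      exact this
    have h := (odd_part hUO hQD hCT hRD hLO hHM k m c a hk hm hR 3 Nat.prime_three (by norm_num)
      (dvd_trans (by norm_num) hk6) (by
      have h8 : 3 ^ 2 ≤ 3 ^ (padicValNat 3 k + 1) := Nat.pow_le_pow_right (by norm_num) (by omega)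
      omega)).1
    have ht : Nat.totient (3 - 1) = 1 := by decide
    rw [ht, pow_one] at h
    have h3 := of_val Nat.prime_three hk h
    calc 3 ^ k < k * (2 * c) := h3
      _ = 2 * k * c := by ring

end Pool.Agent.Work.MP_4faf10_nt.SB
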