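import Pool.Agent.Work.MP_4faf10_nt.SB.StmtsP

/-!
# MP_4faf10_nt, block SB, part P: the theorem from the items
-/

set_option autoImplicit false

namespace Pool.Agent.Work.MP_4faf10_nt.SB

theorem den_mono {i j n : ℕ} (h : i ≤ j) : den i n ≤ den j n := by
  unfold den
  refine Finset.prod_le_prod' fun p hp => ?_
  have hpr : p.Prime := (Finset.mem_filter.1 hp).2.1
  exact Nat.pow_le_pow_right hpr.pos (min_le_min_right _ h)

theorem sb_TH (hPR : StPR) (hNG : StNG) (hVS : StVS) : StTH := by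
  intro A M r K hM
  obtain ⟨j, hj, hj1⟩ : ∃ j, j ≡ r [MOD M] ∧ 1 ≤ j := by
    refine ⟨r % M + M, ?_, by omega⟩
    have h1 : r % M + M ≡ r + 0 [MOD M] := (Nat.mod_modEq r M).add (by
      rw [Nat.ModEq, Nat.mod_self, Nat.zero_mod])
    simpa using h1
  obtain ⟨n, hn, hn1, hMn, hden⟩ := hPR (2 * (A * (j + 1))) (max K j + 2) M hM
  have hnK : K ≤ n := by
    have := le_max_left K j
    omega
  have hnj : j + 2 ≤ n := by
    have := le_max_right K j
    omega
  refine ⟨j + n, by omega, ?_, ?_⟩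
  · have h2 : j + n ≡ r + 0 [MOD M] := hj.add ((Nat.modEq_zero_iff_dvd).2 hMn)
    simpa using h2
  · intro m c a hm hR
    by_contra hcon
    rw [not_or, not_lt, not_lt] at hcon
    obtain ⟨hmk, hck⟩ := hcon
    have h1 : den j n < (m - 1) * c ^ j :=
      hNG j n m c (den j n) a hm hj1 hn1 hR (fun x => hVS j n x hn1)
    have h2 : den 1 n ≤ den j n := den_mono hj1
    have hk2 : j + n ≤ n ^ 2 := by
      nlinarith
    have h3 : (m - 1) * c ^ j ≤ (j + n) ^ (A * (j + 1)) := by
      calc (m - 1) * c ^ j ≤ (j + n) ^ A * ((j + n) ^ A) ^ j :=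
            Nat.mul_le_mul (by omega) (Nat.pow_le_pow_left hck j)
        _ = (j + n) ^ (A * (j + 1)) := by
            rw [← pow_mul, ← pow_add]
            congr 1
            ring
    have h4 : (j + n) ^ (A * (j + 1)) ≤ n ^ (2 * (A * (j + 1))) := by
      rw [pow_mul n 2]
      exact Nat.pow_le_pow_left hk2 _
    omega

end Pool.Agent.Work.MP_4faf10_nt.SB
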