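import Pool.Agent.Work.MP_4faf10_nt.SB.StmtsQ

/-!
# MP_4faf10_nt, block SB, part Q: the theorem from the items
-/

set_option autoImplicit false

namespace Pool.Agent.Work.MP_4faf10_nt.SB

/-- Representations with at most two different terms. -/
def StTQ : Prop := ∀ (k m c : ℕ) (a : Fin m → ℕ), 0 < k → 16 ∣ k → 2 ≤ m → Rep k m c a →
  (m < 2 ^ (padicValNat 2 k + 2) → ∀ x x' : ℕ, ∃ l, a l ≠ x ∧ a l ≠ x') ∧
  (m ≤ 2 ^ (2 * padicValNat 2 k - 1) + 1 → ∀ (i : Fin m) (x : ℕ), ∃ l, l ≠ i ∧ a l ≠ x)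

theorem sb_TQ (hTV : StTV) (hEQ : StEQ) : StTQ := by
  intro k m c a hk h16 hm hR
  refine ⟨fun hmk => hTV k m c a hk h16 hm hmk hR, ?_⟩
  intro hmk i x
  by_contra hcon
  push Not at hcon
  have hsum : c ^ k = a i ^ k + (m - 1) * x ^ k := by
    rw [hR.2, ← Finset.add_sum_erase Finset.univ (fun l => a l ^ k) (Finset.mem_univ i)]
    congr 1
    rw [Finset.sum_congr rfl (fun l hl => by
      rw [hcon l (Finset.ne_of_mem_erase hl)]), Finset.sum_const, Finset.card_erase_of_mem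
      (Finset.mem_univ i), Finset.card_univ, Fintype.card_fin, smul_eq_mul]
  obtain ⟨l, hl⟩ : ∃ l : Fin m, l ≠ i := by
    have : Nontrivial (Fin m) := Fin.nontrivial_iff_two_le.2 hm
    exact exists_ne i
  have hx : 0 < x := by
    have h1 := hR.1 l
    rw [hcon l hl] at h1
    exact h1
  exact hEQ k (m - 1) c (a i) x hk h16 (by omega) (by omega) (hR.1 i) hx hsum

end Pool.Agent.Work.MP_4faf10_nt.SB
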