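import Pool.Agent.Work.MP_4faf10_nt.SB.I_EQ

/-!
# The equation `c ^ k = a ^ k + y b ^ k`, all levels

All factors `c ^ (t 2 ^ i) + a ^ (t 2 ^ i)`, `2 ≤ i < v`, contribute different primes `q_i ≡ 1` modulo `2 ^ (i + 1)` to `y`.
-/

set_option autoImplicit false

namespace Pool.Agent.Work.MP_4faf10_nt.SB

/-- [EQ2] `c ^ k = a ^ k + y b ^ k` has no solution with `y ≤ 2 ^ (v (v + 1) / 2 - 3)`, `8 ∣ k`. -/
def StEQ2 : Prop := ∀ k y c a b : ℕ, 0 < k → 8 ∣ k → 0 < y →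
  y ≤ 2 ^ (padicValNat 2 k * (padicValNat 2 k + 1) / 2 - 3) → 0 < a → 0 < b → c ^ k ≠ a ^ k + y * b ^ k

namespace ISB_EQ2

theorem sum_levels (v : ℕ) (hv : 2 ≤ v) :
    ∑ i ∈ Finset.Ico 2 v, (i + 1) = v * (v + 1) / 2 - 3 := by
  have h : ∀ n : ℕ, 2 * ∑ i ∈ Finset.Ico 2 (n + 2), (i + 1) + 6 = (n + 2) * (n + 3) := by
    intro n
    induction n with
    | zero => simp
    | succ n ih =>
      rw [Finset.sum_Ico_succ_top (by omega), mul_add, add_right_comm, ih]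
      ring
  obtain ⟨n, rfl⟩ : ∃ n, v = n + 2 := ⟨v - 2, by omega⟩
  have h1 := h n
  have h2 : (n + 2) * (n + 2 + 1) = (n + 2) * (n + 3) := by ring
  rw [h2]
  omega

theorem small (v : ℕ) : v * (v + 1) ≤ 2 * 2 ^ v + 4 := by
  induction v with
  | zero => simp
  | succ v ih =>
    have h1 : v + 1 ≤ 2 ^ v := Nat.lt_two_pow_self
    have h2 : (v + 1) * (v + 1 + 1) = v * (v + 1) + 2 * (v + 1) := by ring
    rw [h2, pow_succ]
    omega

/-- The coprime case. -/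
theorem core (hF2 : StF2) (hPW : StPW) (hCF : StCF) (hQP : StQP) (hGQ : StGQ) (k y c a b : ℕ)
    (hk : 0 < k) (h8 : 8 ∣ k) (hy : 0 < y)
    (hyk : y ≤ 2 ^ (padicValNat 2 k * (padicValNat 2 k + 1) / 2 - 3)) (ha : 0 < a)
    (hb : 0 < b) (hab : Nat.Coprime a b) : c ^ k ≠ a ^ k + y * b ^ k := by
  intro heq
  have h3v : 3 ≤ padicValNat 2 k := by
    have h1 : (2 : ℕ) ^ 3 ∣ k := by
      norm_num
      exact h8
    exact (padicValNat_dvd_iff_le hk.ne').mp h1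
  obtain ⟨t, ht⟩ : 2 ^ padicValNat 2 k ∣ k := pow_padicValNat_dvd
  generalize padicValNat 2 k = v at ht hyk h3v
  have ht0 : 0 < t := by
    rcases Nat.eq_zero_or_pos t with h | h
    · rw [h, mul_zero] at ht
      omega
    · exact h
  have hac : a < c := by
    have h1 : a ^ k < c ^ k := by
      rw [heq]
      have : 0 < y * b ^ k := Nat.mul_pos hy (pow_pos hb k)
      omega
    exact lt_of_pow_lt_pow_left₀ k (Nat.zero_le _) h1
  have hkv : v * (v + 1) / 2 - 3 < k := by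
    have h1 := small v
    have h3 : 2 ^ v ≤ k := by
      rw [ht]
      exact Nat.le_mul_of_pos_right _ ht0
    omega
  have hca : Nat.Coprime c a := by
    by_contra hnc
    obtain ⟨p, hp, hpc, hpa⟩ := Nat.Prime.not_coprime_iff_dvd.mp hnc
    have h1 : p ^ k ∣ y * b ^ k := by
      have h2 : p ^ k ∣ a ^ k + y * b ^ k := by
        rw [← heq]
        exact pow_dvd_pow_of_dvd hpc k
      exact (Nat.dvd_add_right (pow_dvd_pow_of_dvd hpa k)).mp h2
    have h3 : Nat.Coprime p b := Nat.Coprime.coprime_dvd_left hpa hab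
    have h4 : p ^ k ∣ y := (Nat.Coprime.pow k k h3).dvd_of_dvd_mul_right h1
    have h5 : p ^ k ≤ y := Nat.le_of_dvd hy h4
    have h6 : 2 ^ k ≤ p ^ k := Nat.pow_le_pow_left hp.two_le k
    have h7 : 2 ^ (v * (v + 1) / 2 - 3) < 2 ^ k := Nat.pow_lt_pow_right (by norm_num) hkv
    omega
  have hst : ∀ i : ℕ, ∃ q : ℕ, i ∈ Finset.Ico 2 v → (q.Prime ∧ q ≠ 2 ∧ q ∣ y ∧
      q ∣ c ^ (t * 2 ^ i) + a ^ (t * 2 ^ i) ∧ 2 ^ (i + 1) ≤ q - 1) := by
    intro i
    by_cases hi : i ∈ Finset.Ico 2 v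
    · obtain ⟨h1, h2⟩ := Finset.mem_Ico.1 hi
      obtain ⟨q, hq⟩ := ISB_EQ.step hF2 hPW hCF hQP k y c a b t v i ht ht0 hy ha hca hac h1 h2 heq
      exact ⟨q, fun _ => hq⟩
    · exact ⟨0, fun h => absurd h hi⟩
  choose q hq using hst
  have hne : ∀ i ∈ Finset.Ico 2 v, ∀ j ∈ Finset.Ico 2 v, i < j → q i ≠ q j := by
    intro i hi j hj hij he
    obtain ⟨h1, h2, _, h4, _⟩ := hq i hi
    obtain ⟨_, _, _, h5, _⟩ := hq j hj
    rw [← he] at h5
    exact hGQ c a t i j (q i) hca h1 h2 hij h4 h5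
  have hdvd : ∏ i ∈ Finset.Ico 2 v, q i ∣ y := by
    apply Finset.prod_dvd_of_isRelPrime
    · intro i hi j hj hij
      rw [Function.onFun, ← Nat.coprime_iff_isRelPrime,
        Nat.coprime_primes (hq i hi).1 (hq j hj).1]
      rcases lt_or_gt_of_ne hij with h | h
      · exact hne i hi j hj h
      · exact (hne j hj i hi h).symm
    · intro i hi
      exact (hq i hi).2.2.1
  have hle : ∏ i ∈ Finset.Ico 2 v, q i ≤ y := Nat.le_of_dvd hy hdvd
  have hlt : ∏ i ∈ Finset.Ico 2 v, 2 ^ (i + 1) < ∏ i ∈ Finset.Ico 2 v, q i := by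
    apply Finset.prod_lt_prod_of_nonempty
    · intro i _
      positivity
    · intro i hi
      have h1 := (hq i hi).2.2.2.2
      have h2 := (hq i hi).1.two_le
      omega
    · exact ⟨2, Finset.mem_Ico.2 ⟨le_refl 2, by omega⟩⟩
  rw [Finset.prod_pow_eq_pow_sum, sum_levels v (by omega)] at hlt
  omega

end ISB_EQ2

open ISB_EQ2 in
theorem sb_EQ2 (hF2 : StF2) (hPW : StPW) (hCF : StCF) (hQP : StQP) (hGQ : StGQ) : StEQ2 := by
  intro k y c a b hk h8 hy hyk ha hb heq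
  have hg : 0 < Nat.gcd a b := Nat.gcd_pos_of_pos_left b ha
  obtain ⟨a', ha'⟩ := Nat.gcd_dvd_left a b
  obtain ⟨b', hb'⟩ := Nat.gcd_dvd_right a b
  have hcop : Nat.Coprime a' b' := by
    have h1 := Nat.coprime_div_gcd_div_gcd hg
    have h2 : a / Nat.gcd a b = a' := Nat.div_eq_of_eq_mul_right hg ha'
    have h3 : b / Nat.gcd a b = b' := Nat.div_eq_of_eq_mul_right hg hb'
    rw [h2, h3] at h1
    exact h1
  have hgc : Nat.gcd a b ∣ c := by
    rw [← Nat.pow_dvd_pow_iff hk.ne', heq]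
    exact Dvd.dvd.add (pow_dvd_pow_of_dvd (Nat.gcd_dvd_left a b) k)
      (Dvd.dvd.mul_left (pow_dvd_pow_of_dvd (Nat.gcd_dvd_right a b) k) y)
  obtain ⟨c', hc'⟩ := hgc
  generalize Nat.gcd a b = g at ha' hb' hc' hg
  subst ha' hb' hc'
  have ha0 : 0 < a' := Nat.pos_of_mul_pos_left ha
  have hb0 : 0 < b' := Nat.pos_of_mul_pos_left hb
  apply core hF2 hPW hCF hQP hGQ k y c' a' b' hk h8 hy hyk ha0 hb0 hcop
  have h1 : g ^ k * c' ^ k = g ^ k * (a' ^ k + y * b' ^ k) := by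
    rw [mul_pow, mul_pow, mul_pow] at heq
    rw [heq]
    ring
  exact Nat.eq_of_mul_eq_mul_left (pow_pos hg k) h1

end Pool.Agent.Work.MP_4faf10_nt.SB
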