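import Pool.Agent.Work.MP_4faf10_nt.SB.StmtsP

/-!
# MP_4faf10_nt, block SB, item PR: den 1 n is larger than any power of n for infinitely many n
-/

set_option autoImplicit false

namespace Pool.Agent.Work.MP_4faf10_nt.SB

namespace ISB_PR

theorem den_pos (n : ℕ) : 0 < den 1 n := by
  unfold den
  apply Finset.prod_pos
  intro p hp
  exact pow_pos (Finset.mem_filter.mp hp).2.1.pos _

theorem card_div (M e : ℕ) (hM : 1 ≤ M) : e + 1 ≤ (M * 2 ^ e).divisors.card := by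
  have h : ((Finset.range (e + 1)).image (fun i => 2 ^ i)) ⊆ (M * 2 ^ e).divisors := by
    intro x hx
    obtain ⟨i, hi, rfl⟩ := Finset.mem_image.mp hx
    rw [Nat.mem_divisors]
    refine ⟨Dvd.dvd.mul_left (pow_dvd_pow 2 (Nat.lt_succ_iff.mp (Finset.mem_range.mp hi))) M, ?_⟩
    positivity
  have h2 := Finset.card_le_card h
  rwa [Finset.card_image_of_injective _ (Nat.pow_right_injective le_rfl), Finset.card_range] at h2

/-- the final inequality -/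
theorem num (τ A C₁ C₂ L u Z S T : ℝ) (hA : 0 ≤ A) (hL : 0 ≤ L) (hu : 0 < u) (hu1 : u ≤ 1)
    (hK : u * (8 * (|C₁| + 2 * A * L + |C₂| + 1)) ≤ 1)
    (h1 : τ / u - C₂ ≤ S) (hZ1 : 1 / (2 * u) ≤ Z) (hZ2 : Z ≤ 2 / u) (hT : T ≤ 8 / u ^ 2)
    (hmain : Z * S ≤ C₁ + A * L * Z + A * T) (hτ : 16 * A + 17 ≤ τ) : False := by
  have a1 := abs_nonneg C₁
  have a2 := abs_nonneg C₂
  have a3 : 0 ≤ A * L := mul_nonneg hA hL
  have b1 : u * |C₂| ≤ 1 / 8 := by nlinarith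
  have b2 : u * |C₁| ≤ 1 / 8 := by nlinarith
  have b3 : u * (2 * (A * L)) ≤ 1 / 8 := by nlinarith
  have c2 : u * C₂ ≤ 1 / 8 := by nlinarith [le_abs_self C₂]
  have d0 : (τ - 1 / 8) / u ≤ τ / u - C₂ := by
    rw [div_le_iff₀ hu]
    have : (τ / u - C₂) * u = τ - u * C₂ := by field_simp
    rw [this]; linarith
  have d1 : (τ - 1 / 8) / u ≤ S := d0.trans h1
  have hS0 : 0 ≤ (τ - 1 / 8) / u := by
    apply div_nonneg _ hu.le
    linarith
  have d2 : 1 / (2 * u) * ((τ - 1 / 8) / u) ≤ Z * S := by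
    have hz : 0 ≤ 1 / (2 * u) := by positivity
    exact mul_le_mul hZ1 d1 hS0 (hz.trans hZ1)
  have d3 : A * L * Z ≤ A * L * (2 / u) := mul_le_mul_of_nonneg_left hZ2 a3
  have d4 : A * T ≤ A * (8 / u ^ 2) := mul_le_mul_of_nonneg_left hT hA
  have d5 : 1 / (2 * u) * ((τ - 1 / 8) / u) ≤ |C₁| + A * L * (2 / u) + A * (8 / u ^ 2) := by
    have := le_abs_self C₁
    linarith
  have hu2 : 0 < u ^ 2 := by positivity
  have d6 := mul_le_mul_of_nonneg_right d5 hu2.le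
  have e1 : 1 / (2 * u) * ((τ - 1 / 8) / u) * u ^ 2 = (τ - 1 / 8) / 2 := by
    field_simp
  have e2 : (|C₁| + A * L * (2 / u) + A * (8 / u ^ 2)) * u ^ 2
      = |C₁| * u ^ 2 + u * (2 * (A * L)) + 8 * A := by
    field_simp
  rw [e1, e2] at d6
  have e3 : |C₁| * u ^ 2 ≤ 1 / 8 := by nlinarith
  linarith

end ISB_PR

theorem sb_PR (hMT : StMT) (hZL : StZL) (hSW : StSW) : StPR := by
  intro A B M hM
  by_contra hcon
  push Not at hcon
  have hM' : 1 ≤ M * 2 ^ (16 * A + 16) := Nat.mul_pos hM (by positivity)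
  have hcard := ISB_PR.card_div M (16 * A + 16) hM
  have hdvd : M ∣ M * 2 ^ (16 * A + 16) := dvd_mul_right _ _
  generalize M * 2 ^ (16 * A + 16) = M' at hM' hcard hdvd
  have hlog : ∀ n : ℕ, max B 1 ≤ n →
      Real.log (den 1 (M' * n) : ℝ) ≤ (A : ℝ) * Real.log ((M' * n : ℕ) : ℝ) := by
    intro n hn
    have hB : B ≤ n := (le_max_left _ _).trans hn
    have h1 : 1 ≤ n := (le_max_right _ _).trans hn
    have hnM : n ≤ M' * n := Nat.le_mul_of_pos_left n hM'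
    have h2 := hcon (M' * n) (hB.trans hnM) (h1.trans hnM) (hdvd.mul_right n)
    rw [← Real.log_pow]
    apply Real.log_le_log
    · exact_mod_cast ISB_PR.den_pos _
    · exact_mod_cast h2
  obtain ⟨C₁, hC₁⟩ := hSW M' (max B 1) (A : ℝ) hM' (Nat.cast_nonneg A) hlog
  obtain ⟨C₂, hC₂⟩ := hMT M' hM'
  obtain ⟨η, hη, hη1, hZ⟩ := hZL
  have hL : 0 ≤ Real.log (M' : ℝ) := Real.log_nonneg (by exact_mod_cast hM')
  have hK : 0 < 8 * (|C₁| + 2 * (A : ℝ) * Real.log (M' : ℝ) + |C₂| + 1) := by positivity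
  have hu : 0 < min η (1 / (8 * (|C₁| + 2 * (A : ℝ) * Real.log (M' : ℝ) + |C₂| + 1))) :=
    lt_min hη (by positivity)
  have huη := min_le_left η (1 / (8 * (|C₁| + 2 * (A : ℝ) * Real.log (M' : ℝ) + |C₂| + 1)))
  have huK := min_le_right η (1 / (8 * (|C₁| + 2 * (A : ℝ) * Real.log (M' : ℝ) + |C₂| + 1)))
  generalize min η (1 / (8 * (|C₁| + 2 * (A : ℝ) * Real.log (M' : ℝ) + |C₂| + 1))) = u
    at hu huη huK
  rw [le_div_iff₀ hK] at huK
  obtain ⟨s1, s2, z1, z2, z3⟩ := hZ u hu huη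
  obtain ⟨N, hN⟩ := hC₂ (1 + u) (by linarith) (by linarith)
  have hfin := hC₁ (1 + u) (by linarith) s1 s2 N
  have e : 1 + u - 1 = u := by ring
  rw [e] at hN
  have hτ : 16 * (A : ℝ) + 17 ≤ (M'.divisors.card : ℝ) := by exact_mod_cast hcard
  exact ISB_PR.num _ (A : ℝ) C₁ C₂ _ u _ _ _ (Nat.cast_nonneg A) hL hu (huη.trans hη1) huK hN
    z1 z2 z3 hfin hτ

end Pool.Agent.Work.MP_4faf10_nt.SB
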