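import Mathlib

/-!
# MP_4faf10_nt, block SB (captain helper16): few terms need a large base; statements with complete proofs

`c ^ k = a_1 ^ k + .. + a_m ^ k` in positive integers. If `p - 1 ∣ k`, then `x ^ k` is `0` or `1` modulo
`q = p ^ (v_p(k) + 1)`, so for `m < q` exactly one term is prime to `p` (after division by the gcd), and then `c ^ k - a_i ^ k` is
divisible by `p ^ k`, which makes `c` large. Item `XX`: file `SB/I_XX.lean`, theorem `sb_XX`, aux lemmas in namespace `ISB_XX`.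
-/

set_option autoImplicit false

namespace Pool.Agent.Work.MP_4faf10_nt.SB

/-- `c ^ k` is the sum of the `k`-th powers of the `m` positive integers `a i`. -/
def Rep (k m c : ℕ) (a : Fin m → ℕ) : Prop := (∀ i, 0 < a i) ∧ c ^ k = ∑ i, a i ^ k

/-- Exactly one of the `a i` contains `p` to the same power as `c`, all others to a higher power. -/
def One (p m c : ℕ) (a : Fin m → ℕ) : Prop :=
  ∃ i, padicValNat p (a i) = padicValNat p c ∧ ∀ l, l ≠ i → padicValNat p c < padicValNat p (a l)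

/-- The product of `p ^ min j (v_p(n) + 1)` over the primes `p` with `p - 1 ∣ n` (for `j = 1` and even `n` the denominator of the
Bernoulli number `B_n`). -/
def den (j n : ℕ) : ℕ :=
  ∏ p ∈ (Finset.range (n + 2)).filter (fun p => p.Prime ∧ (p - 1) ∣ n), p ^ min j (padicValNat p n + 1)

/-- [UO] (EASY) PROOF. `φ (p ^ (v + 1)) = p ^ v * (p - 1)` (`Nat.totient_prime_pow_succ`) divides `k` (`pow_padicValNat_dvd`, coprime factors: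
`Nat.Coprime.mul_dvd_of_dvd_of_dvd`), `Nat.ModEq.pow_totient`. -/
def StUO : Prop := ∀ p k x : ℕ, p.Prime → k ≠ 0 → (p - 1) ∣ k → ¬ p ∣ x →
  x ^ k ≡ 1 [MOD p ^ (padicValNat p k + 1)]

/-- [UE] (EASY-MEDIUM) PROOF. `k = 2 ^ v * t`, `v ≥ 1`. By induction on `v ≥ 1`: `x ^ (2 ^ v) ≡ 1` modulo `2 ^ (v + 2)` (`v = 1`: an odd square is
`1` modulo `8`; step: `y ^ 2 - 1 = (y - 1) * (y + 1)` in `ℤ`). Or `Int.two_pow_sub_pow` / `padicValNat.pow_two_sub_pow`. -/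
def StUE : Prop := ∀ k x : ℕ, k ≠ 0 → Even k → ¬ 2 ∣ x → x ^ k ≡ 1 [MOD 2 ^ (padicValNat 2 k + 2)]

/-- [QD] (EASY) PROOF. `v + 1 ≤ p ^ v ≤ k` as `p ^ v ∣ k`, `p ≥ 2`; for `p = 2` and `k ≥ 4` even: `v = 1` gives `3 ≤ k`, `v ≥ 2` gives
`v + 2 ≤ 2 ^ v ≤ k`. -/
def StQD : Prop := (∀ p k : ℕ, p.Prime → k ≠ 0 → padicValNat p k + 1 ≤ k) ∧
  ∀ k : ℕ, Even k → 4 ≤ k → padicValNat 2 k + 2 ≤ k

/-- [CT] (MEDIUM) Counting. PROOF. Let `e` be the least `padicValNat p (a l)` (attained at some `l`), `a l = p ^ e * b l`. Then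
`p ^ (e * k) = (p ^ e) ^ k` divides `c ^ k`, so `p ^ e ∣ c` (`Nat.pow_dvd_pow_iff`), `c = p ^ e * d`, and `d ^ k = ∑ b l ^ k`. Let `r` be the number of the
`l` with `¬ p ∣ b l`; `1 ≤ r ≤ m < q`. Modulo `q` the sum is `r` (if `p ∣ x`, then `q ∣ p ^ k ∣ x ^ k`). If `p ∣ d`, then `r ≡ 0`, impossible. So
`¬ p ∣ d` and `r ≡ 1`, so `r = 1`. -/
def StCT : Prop := ∀ (p q k m c : ℕ) (a : Fin m → ℕ), p.Prime → 1 < q → m < q → q ∣ p ^ k → k ≠ 0 →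
  (∀ x, ¬ p ∣ x → x ^ k ≡ 1 [MOD q]) → 2 ≤ m → Rep k m c a →
  ∃ (e d : ℕ) (b : Fin m → ℕ) (i : Fin m), c = p ^ e * d ∧ (∀ l, a l = p ^ e * b l) ∧
    ¬ p ∣ d ∧ ¬ p ∣ b i ∧ ∀ l, l ≠ i → p ∣ b l

/-- [RD] (EASY-MEDIUM) PROOF. `b l ≠ 0` and `d ≠ 0` as `a l > 0`, `c > 0`; the valuations are `e`, `e + v_p(b l) ≥ e + 1`. Cancel
`(p ^ e) ^ k`: `d ^ k = ∑ b l ^ k`; so `d ^ k - b i ^ k = ∑_(l ≠ i) b l ^ k` is divisible by `p ^ k`, and it is positive as `m ≥ 2`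
(`Finset.add_sum_erase`), so `b i < d`. Take `b = b i`. -/
def StRD : Prop := ∀ (p k m c : ℕ) (a : Fin m → ℕ) (e d : ℕ) (b : Fin m → ℕ) (i : Fin m), p.Prime →
  k ≠ 0 → 2 ≤ m → Rep k m c a → c = p ^ e * d → (∀ l, a l = p ^ e * b l) → ¬ p ∣ d → ¬ p ∣ b i →
  (∀ l, l ≠ i → p ∣ b l) →
  One p m c a ∧ d ≤ c ∧ 0 < b i ∧ b i < d ∧ p ^ k ∣ d ^ k - b i ^ k

/-- [LO] (EASY-MEDIUM) PROOF. `k = (p - 1) * t`, `v_p(t) = v_p(k)`. `padicValNat.pow_sub_pow` for `x = d ^ (p - 1)`, `y = b ^ (p - 1)`, exponent `t`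
(`p ∣ x - y` by Fermat): `v_p(d ^ k - b ^ k) = v_p(x - y) + v_p(t)`, and `v_p(d ^ k - b ^ k) ≥ k`. -/
def StLO : Prop := ∀ p k d b : ℕ, p.Prime → p ≠ 2 → k ≠ 0 → (p - 1) ∣ k → 0 < b → b < d → ¬ p ∣ d →
  ¬ p ∣ b → p ^ k ∣ d ^ k - b ^ k → p ^ (k - padicValNat p k) ∣ d ^ (p - 1) - b ^ (p - 1)

/-- [HM] (MEDIUM) Cyclotomic factors. PROOF. For `j ∣ p - 1` let `H j = (Polynomial.scaleRoots (cyclotomic j ℤ) b).eval d`, an integer; by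
`Polynomial.scaleRoots_eval₂_mul` for `ℤ → ℝ` `H j = b ^ φ(j) * (cyclotomic j ℝ).eval (d / b)`, and the same in `ZMod p`. So (from
`Polynomial.prod_cyclotomic_eq_X_pow_sub_one`, `Nat.sum_totient`) `∏_(j ∣ p - 1) H j = d ^ (p - 1) - b ^ (p - 1)`, and
`0 < H j ≤ (d + b) ^ φ(j) < (2 d) ^ φ(j) ≤ (2 d) ^ φ(p - 1)` (`Polynomial.cyclotomic_pos_and_nonneg`,
`Polynomial.cyclotomic_eval_le_add_one_pow_totient`, `Nat.totient_dvd_of_dvd`). `p` divides at most one `H j`: otherwise `d / b` in `ZMod p` would be a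
primitive root of unity of two different orders (`Polynomial.isRoot_cyclotomic_iff`, `j ≠ 0` in `ZMod p`). So `p ^ K` divides one `H j`
(`Nat.Coprime.dvd_of_dvd_mul_left`; for `K = 0` nothing is to be proved: `1 < (2 d) ^ φ`). -/
def StHM : Prop := ∀ p K d b : ℕ, p.Prime → 0 < b → b < d → ¬ p ∣ b → ¬ p ∣ d →
  p ^ K ∣ d ^ (p - 1) - b ^ (p - 1) → p ^ K < (2 * d) ^ Nat.totient (p - 1)

/-- [L2] (EASY-MEDIUM) PROOF. `padicValNat.pow_two_sub_pow`: `v(d ^ k - b ^ k) + 1 = v(d + b) + v(d - b) + v(k)`, `v = v_2`. As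
`(d + b) - (d - b) = 2 b` is `2` modulo `4`, one of `v(d + b)`, `v(d - b)` is `1`, so the other is at least `k - v(k)`; and
`d - b ≤ d + b < 2 d`. -/
def StL2 : Prop := ∀ k d b : ℕ, k ≠ 0 → Even k → b < d → ¬ 2 ∣ d → ¬ 2 ∣ b → 2 ^ k ∣ d ^ k - b ^ k →
  2 ^ (k - padicValNat 2 k) < 2 * d

/-- [NG] (EASY-MEDIUM) PROOF. All `a i < c` (as `m ≥ 2`). `c ^ k = ∑ a i ^ j * a i ^ n < c ^ n * ∑ a i ^ j`, so `c ^ j < ∑ a i ^ j`.
Modulo `N`: `∑ a i ^ j ≡ ∑ a i ^ (j + n) = c ^ (j + n) ≡ c ^ j`, so `N ∣ ∑ a i ^ j - c ^ j`, and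
`N ≤ ∑ a i ^ j - c ^ j < m * c ^ j - c ^ j`. -/
def StNG : Prop := ∀ (j n m c N : ℕ) (a : Fin m → ℕ), 2 ≤ m → 1 ≤ j → 1 ≤ n → Rep (j + n) m c a →
  (∀ x : ℕ, x ^ j ≡ x ^ (j + n) [MOD N]) → N < (m - 1) * c ^ j

/-- [VS] (EASY-MEDIUM) PROOF (StUO). The factors of `den j n` are pairwise coprime, so it is enough to show the congruence modulo each
`p ^ min j (v + 1)` (`Finset.prod_dvd_of_coprime` for the difference in `ℤ`, or `Nat.modEq_iff_dvd`). If `p ∣ x`, both sides are divisible by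
`p ^ j`. Otherwise `x ^ n ≡ 1` modulo `p ^ (v + 1)` by StUO. -/
def StVS : Prop := ∀ j n x : ℕ, 1 ≤ n → x ^ j ≡ x ^ (j + n) [MOD den j n]

/-- [FN] (helper16) The theorem. -/
def StFN : Prop :=
  (∀ (k m c : ℕ) (a : Fin m → ℕ), k ≠ 0 → 2 ≤ m → Rep k m c a →
    (∀ p : ℕ, p.Prime → p ≠ 2 → (p - 1) ∣ k → m < p ^ (padicValNat p k + 1) →
      p ^ (k - padicValNat p k) < (2 * c) ^ Nat.totient (p - 1) ∧ One p m c a) ∧
    (Even k → 4 ≤ k → m < 2 ^ (padicValNat 2 k + 2) →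
      2 ^ (k - padicValNat 2 k) < 2 * c ∧ One 2 m c a) ∧
    (∀ j n : ℕ, 1 ≤ j → 1 ≤ n → k = j + n → den j n < (m - 1) * c ^ j)) ∧
  (∀ (s m c : ℕ) (a : Fin m → ℕ), 2 ≤ s → 2 ≤ m → Rep (2 ^ s) m c a → m < 4 * 2 ^ s →
    2 ^ 2 ^ s < 2 * 2 ^ s * c) ∧
  (∀ (k m c : ℕ) (a : Fin m → ℕ), Even k → 4 ≤ k → 2 ≤ m → m ≤ 7 → Rep k m c a → 2 ^ k < 2 * k * c) ∧
  ∀ (k m c : ℕ) (a : Fin m → ℕ), 6 ∣ k → 0 < k → 2 ≤ m → m ≤ 8 → Rep k m c a → 3 ^ k < 2 * k * c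

end Pool.Agent.Work.MP_4faf10_nt.SB
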