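import Pool.Agent.Work.MP_4faf10_nt.SB.Stmts

/-!
# MP_4faf10_nt, block SB, part P (captain helper16): infinitely many exponents without cheap representations

`den 1 n` is the product of the primes `p` with `p - 1 ∣ n`. An average over the multiples `n` of a number `M` with many divisors (weights
`n ^ (-s)`, `s → 1`) and Dirichlet's theorem (in the form of Mathlib) show that `den 1 n > n ^ A` for infinitely many `n`. With
StNG and StVS: for infinitely many `k` in each residue class every representation `c ^ k = a_1 ^ k + .. + a_m ^ k` has `m > k ^ A` or `c > k ^ A`.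
Item `XX`: file `SB/I_XX.lean`, theorem `sb_XX`, aux lemmas in namespace `ISB_XX`.
-/

set_option autoImplicit false

namespace Pool.Agent.Work.MP_4faf10_nt.SB

/-- The zeta function on the real axis, as a sum. -/
noncomputable def Z (s : ℝ) : ℝ := ∑' n : ℕ, 1 / (n : ℝ) ^ s

/-- The primes below `N` which are `1` modulo `d`. -/
def prs (N d : ℕ) : Finset ℕ := (Finset.range N).filter fun p => p.Prime ∧ d ∣ p - 1

/-- [LB] (MEDIUM) Dirichlet's theorem. PROOF. `ArithmeticFunction.vonMangoldt.LSeries_residueClass_lower_bound` for `q = d`, `a = 1`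
(`NeZero d`): `(φ d)⁻¹ / (s - 1) - C₀ ≤ ∑' residueClass 1 n / n ^ s` (a summable series, `residueClass ≤ Λ`). The part over the `n` which are
not prime is at most the convergent sum `ArithmeticFunction.vonMangoldt.summable_residueClass_non_primes_div` (as `n ^ s ≥ n`), independent of
`s`; for a prime `p` the term is `log p / p ^ s` if `p ≡ 1` modulo `d` (that is `d ∣ p - 1`) and `0` otherwise. The partial sums of the
prime part converge to it, so for `N` large they are larger than it minus `1`. -/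
def StLB : Prop := ∀ d : ℕ, 1 ≤ d → ∃ C : ℝ, ∀ s : ℝ, 1 < s → s ≤ 2 → ∃ N : ℕ, ∀ N' : ℕ, N ≤ N' →
  (Nat.totient d : ℝ)⁻¹ / (s - 1) - C ≤ ∑ p ∈ prs N' d, Real.log p / (p : ℝ) ^ s

/-- [GD] (EASY) PROOF. `gcd M (p - 1) = ∑_(d ∣ gcd) φ d` (`Nat.sum_totient`), `d ∣ gcd M (p - 1)` iff `d ∣ M` and `d ∣ p - 1`; exchange the
sums (`Finset.sum_comm'`, or both sides as sums over `prs N 1` with an `if`). `prs N 1` are all primes below `N`. -/
def StGD : Prop := ∀ (M N : ℕ) (s : ℝ), 1 ≤ M →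
  ∑ p ∈ prs N 1, Real.log p * (Nat.gcd M (p - 1) : ℝ) / (p : ℝ) ^ s =
    ∑ d ∈ M.divisors, (Nat.totient d : ℝ) * ∑ p ∈ prs N d, Real.log p / (p : ℝ) ^ s

/-- [MT] (EASY) PROOF (StLB, StGD). `C = ∑_(d ∣ M) φ(d) C_d`, `N` the maximum of the `N_d`, `d ∣ M` (`Finset.sup`). -/
def StMT : Prop := ∀ M : ℕ, 1 ≤ M → ∃ C : ℝ, ∀ s : ℝ, 1 < s → s ≤ 2 → ∃ N : ℕ,
  (M.divisors.card : ℝ) / (s - 1) - C ≤
    ∑ p ∈ prs N 1, Real.log p * (Nat.gcd M (p - 1) : ℝ) / (p : ℝ) ^ s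

/-- [ZL] (EASY-MEDIUM) PROOF. `tendsto_sub_mul_tsum_nat_rpow` gives `η` with `1 / 2 ≤ u * Z (1 + u) ≤ 2` for `0 < u ≤ η`. `log n ≤ n ^ (u / 2) * (2 / u)`
(`Real.log_le_rpow_div`), so `log n / n ^ (1 + u) ≤ (2 / u) * (1 / n ^ (1 + u / 2))` and the sum is at most `(2 / u) * (4 / u)`. -/
def StZL : Prop := ∃ η : ℝ, 0 < η ∧ η ≤ 1 ∧ ∀ u : ℝ, 0 < u → u ≤ η →
  Summable (fun n : ℕ => 1 / (n : ℝ) ^ (1 + u)) ∧
  Summable (fun n : ℕ => Real.log n / (n : ℝ) ^ (1 + u)) ∧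
  1 / (2 * u) ≤ Z (1 + u) ∧ Z (1 + u) ≤ 2 / u ∧
  ∑' n : ℕ, Real.log n / (n : ℝ) ^ (1 + u) ≤ 8 / u ^ 2

/-- [SW] (MEDIUM) The average. PROOF. For a prime `p` let `g = gcd M (p - 1)`, `h = (p - 1) / g ≥ 1`. For `n ≥ 1`: `p - 1 ∣ M * n` iff `h ∣ n`. The sum of
`1 / n ^ s` over the multiples `n ≥ 1` of `h` is `Z s / h ^ s` (the term `n = 0` of `Z` is `0`), and `1 / h ^ s = g ^ s / (p - 1) ^ s ≥ g / p ^ s`. So
`Z s * ∑_p log p * g / p ^ s ≤ ∑_(p < N) log p ∑'_(n ≥ 1, h ∣ n) 1 / n ^ s = ∑'_(n ≥ 1) (1 / n ^ s) ∑_(p < N, p - 1 ∣ M n) log p`, and the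
inner sum is at most `log (den 1 (M * n))` (the exponents in `den 1` are `min 1 (v + 1) = 1`; a prime `p` with `p - 1 ∣ M n` is at most
`M n + 1`). For `n ≥ B` this is at most `A (log M + log n)`, for `n < B` at most `log (den 1 (M * n))`, and `1 / n ^ s ≤ 1`:
`C = ∑_(n < B) log (den 1 (M * n))`. -/
def StSW : Prop := ∀ (M B : ℕ) (A : ℝ), 1 ≤ M → 0 ≤ A →
  (∀ n : ℕ, B ≤ n → Real.log (den 1 (M * n) : ℝ) ≤ A * Real.log ((M * n : ℕ) : ℝ)) →
  ∃ C : ℝ, ∀ s : ℝ, 1 < s → Summable (fun n : ℕ => 1 / (n : ℝ) ^ s) →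
    Summable (fun n : ℕ => Real.log n / (n : ℝ) ^ s) → ∀ N : ℕ,
    Z s * ∑ p ∈ prs N 1, Real.log p * (Nat.gcd M (p - 1) : ℝ) / (p : ℝ) ^ s ≤
      C + A * Real.log M * Z s + A * ∑' n : ℕ, Real.log n / (n : ℝ) ^ s

/-- [PR] (MEDIUM) PROOF (StMT, StZL, StSW). `M' = M * 2 ^ (16 * A + 16)` has at least `16 A + 17` divisors (the `2 ^ i`). If there is no such
`n`, then `den 1 n ≤ n ^ A` for all `n ≥ max B 1` with `M ∣ n`, so StSW applies to `M'`, `max B 1` (`M' n ≥ n`). Let `C₁` be its constant and `C₂` that of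
StMT for `M'`, `τ` the number of divisors. For all small `u > 0` (`u ≤ η`, `u C₂ ≤ τ`; `s = 1 + u`) the two sides of StSW give
`(1 / (2 u)) * (τ / u - C₂) ≤ C₁ + A * log M' * (2 / u) + 8 A / u ^ 2` (take `C₁ ≥ 0`). Multiply by `u ^ 2`:
`τ / 2 - C₂ u / 2 ≤ C₁ u ^ 2 + 2 A (log M') u + 8 A` for all small `u > 0`, against `τ ≥ 16 A + 17`. -/
def StPR : Prop := ∀ A B M : ℕ, 1 ≤ M → ∃ n : ℕ, B ≤ n ∧ 1 ≤ n ∧ M ∣ n ∧ n ^ A < den 1 n

/-- [TH] (helper16) The theorem. PROOF (StPR, StNG, StVS). `j = r % M + M`, `n` from StPR for `2 A (j + 1)`, `max K j + 2`, `M`; `k = j + n ≤ n ^ 2`. If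
`m, c ≤ k ^ A`, then `den j n < (m - 1) c ^ j ≤ k ^ (A (j + 1)) ≤ n ^ (2 A (j + 1)) < den 1 n ≤ den j n`. -/
def StTH : Prop := ∀ A M r K : ℕ, 1 ≤ M → ∃ k : ℕ, K ≤ k ∧ k ≡ r [MOD M] ∧
  ∀ (m c : ℕ) (a : Fin m → ℕ), 2 ≤ m → Rep k m c a → k ^ A < m ∨ k ^ A < c

end Pool.Agent.Work.MP_4faf10_nt.SB
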