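import Pool.Agent.Work.MP_4faf10_nt.SB.Stmts

/-!
# MP_4faf10_nt, block SB, part Q (captain helper16): at least three different terms

For `16 ∣ k` a representation `c ^ k = a_1 ^ k + .. + a_m ^ k`, `2 ≤ m < 2 ^ (v_2(k) + 2)` (`4 k` for `k` a power of two), has at least three
different values among the `a_i`; and `c ^ k = a ^ k + y b ^ k` has no solution in positive integers with `y ≤ 2 ^ (2 v_2(k) - 1)`.
Item `XX`: file `SB/I_XX.lean`, theorem `sb_XX`, aux lemmas in namespace `ISB_XX`.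
-/

set_option autoImplicit false

namespace Pool.Agent.Work.MP_4faf10_nt.SB

/-- [F1] (MEDIUM-HARD) Fermat's right triangle theorem. PROOF by descent on `a` (as in `Mathlib/NumberTheory/FLT/Four.lean`). We may assume
`gcd a b = 1` (a common prime `p` gives `p ^ 4 ∣ c ^ 2`, `p ^ 2 ∣ c`). `(b ^ 2) ^ 2 + c ^ 2 = (a ^ 2) ^ 2` is a primitive Pythagorean triple.
If `b` is odd: `b ^ 2 = m ^ 2 - n ^ 2`, `a ^ 2 = m ^ 2 + n ^ 2`, so `m ^ 4 = n ^ 4 + (a b) ^ 2` with `0 < n`, `m < a`: descent. If `b` is even: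
`b ^ 2 = 2 m n`, `a ^ 2 = m ^ 2 + n ^ 2`, `gcd m n = 1`; one of `m, n` is `r ^ 2`, the other `2 t ^ 2`, so `a ^ 2 = (r ^ 2) ^ 2 + (2 t ^ 2) ^ 2` is
primitive: `r ^ 2 = u ^ 2 - v ^ 2`, `2 t ^ 2 = 2 u v`, so `u = p ^ 2`, `v = q ^ 2`, `p ^ 4 = q ^ 4 + r ^ 2`, `p ≤ u < a`: descent. -/
def StF1 : Prop := ∀ a b c : ℕ, 0 < b → 0 < c → a ^ 4 ≠ b ^ 4 + c ^ 2

/-- [F2] (EASY) PROOF (StF1). If `y < x`: `x, y` have the same parity, `D = (x ^ 4 - y ^ 4) / 2 > 0` and `z ^ 4 = (x y) ^ 4 + D ^ 2`. -/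
def StF2 : Prop := ∀ x y z : ℕ, 0 < x → 0 < y → x ^ 4 + y ^ 4 = 2 * z ^ 2 → x = y

/-- [PW] (EASY) PROOF. `y ∣ S` as `y` is coprime to `H`; `b ^ k = H * (S / y)`, coprime factors: `exists_eq_pow_of_mul_eq_pow` /
`Nat.eq_pow_of_mul_eq_pow` (`y > 0`). -/
def StPW : Prop := ∀ k y b H S : ℕ, 0 < y → H * S = y * b ^ k → Nat.Coprime H S → Nat.Coprime H y →
  ∃ w, H = w ^ k

/-- [CF] (MEDIUM) The factor. PROOF. `u = c ^ (t * 2 ^ i)`, `w = a ^ (t * 2 ^ i)`, `e = 2 ^ (v - i) ≥ 2`: `u ^ e - w ^ e = (u + w) R`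
(`e` is even: `Odd.nat_add_dvd_pow_add_pow` or `u ^ 2 - w ^ 2 ∣ u ^ e - w ^ e`). An odd prime `q` which divides `u + w` and `R`: in `ZMod q`, or by
lifting the exponent (`v_q(u ^ e - w ^ e) = v_q(u ^ 2 - w ^ 2) + v_q(e / 2) = v_q(u + w)`, as `q` divides neither `e` nor `u - w`; `q ∣ u - w` would give
`q ∣ 2 u`, `q ∣ u`, `q ∣ w`, against `c, a` coprime): contradiction. If `c` and `a` are odd, then `u + w` is `2` modulo `4` (`i ≥ 1`: `u, w` are odd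
squares), `H = (u + w) / 2` is odd and coprime to `2 R`. If one of `c, a` is even, `u + w` is odd, take `H = u + w`. -/
def StCF : Prop := ∀ c a t v i : ℕ, Nat.Coprime c a → a < c → 0 < a → 0 < t → 1 ≤ i → i < v →
  ∃ H S : ℕ, H * S = c ^ (2 ^ v * t) - a ^ (2 ^ v * t) ∧ Nat.Coprime H S ∧ ¬ 2 ∣ H ∧
    (c ^ (t * 2 ^ i) + a ^ (t * 2 ^ i) = H ∨ c ^ (t * 2 ^ i) + a ^ (t * 2 ^ i) = 2 * H)

/-- [QP] (EASY-MEDIUM) PROOF. In `ZMod q` `a ≠ 0` (otherwise `q ∣ c`, too), `z = (c / a) ^ t` has `z ^ (2 ^ i) = -1 ≠ 1`, so its order is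
`2 ^ (i + 1)` (`orderOf_eq_prime_pow`), which divides `q - 1` (`ZMod.orderOf_dvd_card_sub_one`). -/
def StQP : Prop := ∀ c a t i q : ℕ, Nat.Coprime c a → q.Prime → q ≠ 2 →
  q ∣ c ^ (t * 2 ^ i) + a ^ (t * 2 ^ i) → 2 ^ (i + 1) ∣ q - 1

/-- [GQ] (EASY-MEDIUM) PROOF. Suppose an odd prime `q` divides both. `x = c ^ (t * 2 ^ i)`, `y = a ^ (t * 2 ^ i)` satisfy `x ≡ -y` modulo `q`, `j > i`,
so `x ^ (2 ^ (j - i)) + y ^ (2 ^ (j - i)) ≡ 2 y ^ (2 ^ (j - i))`, so `q ∣ y`, `q ∣ a`, and `q ∣ c`. -/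
def StGQ : Prop := ∀ c a t i j q : ℕ, Nat.Coprime c a → q.Prime → q ≠ 2 → i < j →
  q ∣ c ^ (t * 2 ^ i) + a ^ (t * 2 ^ i) → ¬ q ∣ c ^ (t * 2 ^ j) + a ^ (t * 2 ^ j)

/-- [EQ] (MEDIUM) The equation. PROOF (StF2, StPW, StCF, StQP, StGQ, `not_fermat_42` for integers). Divide by `gcd a b` (to the `k`; it divides `c`):
`gcd a b = 1`. `k = 2 ^ v * t`, `v = padicValNat 2 k ≥ 4`, `t` odd. If a prime `p` divides `c` and `a`, then `p ∤ b` and `p ^ k ∣ y`, so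
`y ≥ 2 ^ k > 2 ^ (2 v - 1)` (`k ≥ 2 ^ v ≥ 2 v`). So `c, a` are coprime. Let `i = v - 1` or `i = v - 2` (so `i ≥ 2`), `H, S` from StCF:
`H * S = y * b ^ k`. If `H` is coprime to `y`, then `H = w ^ k` (StPW), and with `x = c ^ (t * 2 ^ (i - 2))`, `x' = a ^ (t * 2 ^ (i - 2))`:
`x ^ 4 + x' ^ 4 = w ^ k` or `2 w ^ k`, `w ^ k = (w ^ (k / 2)) ^ 2`: against `not_fermat_42`, StF2 (`x' < x`). So there is a prime `q_i ∣ H`, `q_i ∣ y`,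
odd as `H` is odd, `q_i ≥ 2 ^ (i + 1) + 1` (StQP). `q_(v-1) ≠ q_(v-2)` (StGQ), so `y ≥ q_(v-1) q_(v-2) > 2 ^ v * 2 ^ (v - 1)`. -/
def StEQ : Prop := ∀ k y c a b : ℕ, 0 < k → 16 ∣ k → 0 < y → y ≤ 2 ^ (2 * padicValNat 2 k - 1) → 0 < a → 0 < b →
  c ^ k ≠ a ^ k + y * b ^ k

/-- [TV] (EASY-MEDIUM) PROOF (StCT, StUE, StQD, StEQ). Suppose all `a l ∈ {x, x'}`. StCT for `p = 2`, `q = 2 ^ (v + 2)` (`v ≥ 4`) gives `e, d, b, i` with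
`b i` odd, the other `b l` even, so `b l ≠ b i` and `a l ≠ a i` for `l ≠ i`; so all the other `a l` are equal to the other value, say `x'`:
`c ^ k = (a i) ^ k + (m - 1) x' ^ k`, `0 < m - 1 < 2 ^ (v + 2) ≤ 2 ^ (2 v - 1)` (`v ≥ 3`): against StEQ. -/
def StTV : Prop := ∀ (k m c : ℕ) (a : Fin m → ℕ), 0 < k → 16 ∣ k → 2 ≤ m →
  m < 2 ^ (padicValNat 2 k + 2) → Rep k m c a → ∀ x x' : ℕ, ∃ l, a l ≠ x ∧ a l ≠ x'

end Pool.Agent.Work.MP_4faf10_nt.SB
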